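import Pool.Agent.H81.CC.Defs
import Pool.Agent.H72.GP.Targets

/-!
# Fixed tuples of logarithms at all heights, by complex conjugation: theorems (MP_3cf473_nt)
-/

set_option autoImplicit false

open Finset Filter

namespace Pool.Agent.H81.CC

open Pool.Agent.H72.BF (badRN)

noncomputable section

/-- the logarithm of `1 + (x + i y) / N` -/
def gl (N : ℕ) (x y : ℤ) : ℂ := Complex.log (1 + ((x : ℂ) + (y : ℂ) * Complex.I) / N)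

/-- the Gaussian integers `x k + i y k` are not real, pairwise distinct and not conjugate -/
def NR {n : ℕ} (x y : Fin n → ℤ) : Prop :=
  (∀ k, y k ≠ 0) ∧ ∀ j k, j ≠ k → x j = x k → y j ≠ y k ∧ y j ≠ - y k

/-- they are small -/
def Sm {n : ℕ} (N : ℕ) (dl : ℝ) (x y : Fin n → ℤ) : Prop :=
  ∀ k, |((x k : ℤ) : ℝ)| ≤ (N : ℝ) ^ dl ∧ |((y k : ℤ) : ℝ)| ≤ (N : ℝ) ^ dl

/-- CCR: the tuple `(log (1 + b k / N))` is good relative to every real or imaginary number -/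
def T_CCR : Prop := ∀ n d : ℕ, ∃ (dl : ℝ) (N1 : ℕ), 0 < dl ∧ ∀ A : ℝ, ∃ C : ℝ, 0 < C ∧
  ∀ N : ℕ, N1 ≤ N → ∀ H : ℝ, 2 ≤ H → (N : ℝ) ≤ H → ∀ ξ : ℂ, ‖ξ‖ ≤ H →
  ((starRingEnd ℂ) ξ = ξ ∨ (starRingEnd ℂ) ξ = -ξ) → ∀ x y : Fin n → ℤ, NR x y → Sm N dl x y →
  ¬ badRN (fun _ : Fin 1 => ξ) d A C H (fun k => gl N (x k) (y k))

/-- CCF: fixed tuples `(ξ, log (1 + b k / N))` at all heights, `ξ` a real or imaginary logarithm -/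
def T_CCF : Prop := ∀ n d : ℕ, ∃ (dl : ℝ) (N1 : ℕ), 0 < dl ∧ ∀ ξ : ℂ, ξ ≠ 0 →
  IsAlgebraic ℚ (Complex.exp ξ) → ((starRingEnd ℂ) ξ = ξ ∨ (starRingEnd ℂ) ξ = -ξ) →
  ∃ C : ℝ, 0 < C ∧ ∀ N : ℕ, N1 ≤ N → ∀ x y : Fin n → ℤ, NR x y → Sm N dl x y →
  ∀ H : ℝ, 2 ≤ H → (N : ℝ) ≤ H → ∀ P : MvPolynomial (Fin (n + 1)) ℤ, P ≠ 0 →
  P.totalDegree ≤ d → (∀ e : Fin (n + 1) →₀ ℕ, |((P.coeff e : ℤ) : ℝ)| ≤ H) →
  1 ≤ H ^ C * ‖MvPolynomial.aeval (Fin.cons ξ (fun k => gl N (x k) (y k)) : Fin (n + 1) → ℂ) P‖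

/-- CCU: uniform version for the logarithms of Gaussian integers near `N` -/
def T_CCU : Prop := ∀ n d : ℕ, ∃ (dl : ℝ) (N1 : ℕ) (C : ℝ), 0 < dl ∧ 0 < C ∧
  ∀ N : ℕ, N1 ≤ N → ∀ x y : Fin n → ℤ, NR x y → Sm N dl x y →
  ∀ H : ℝ, (N : ℝ) ≤ H → ∀ P : MvPolynomial (Fin n) ℤ, P ≠ 0 →
  P.totalDegree ≤ d → (∀ e : Fin n →₀ ℕ, |((P.coeff e : ℤ) : ℝ)| ≤ H) →
  1 ≤ H ^ C * ‖MvPolynomial.aeval (fun k =>
    Complex.log ((N : ℂ) + (x k : ℂ) + (y k : ℂ) * Complex.I)) P‖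

end

end Pool.Agent.H81.CC
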