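import Pool.Agent.H72.BF.Assemble2

/-!
# The case of one logarithm and coefficients of a polynomial in the last variables
-/

set_option autoImplicit false

open Finset Filter

namespace Pool.Agent.H81.CC

open Pool.Agent.H72.BF

/-- the theorem of Feldman, one logarithm -/
theorem feldman (ξ : ℂ) (h0 : ξ ≠ 0) (hξ : IsAlgebraic ℚ (Complex.exp ξ)) (d : ℕ) :
    ∃ C : ℝ, 0 < C ∧ ∀ H : ℝ, 2 ≤ H → ∀ P : MvPolynomial (Fin 1) ℤ, P ≠ 0 → P.totalDegree ≤ d →
    (∀ e : Fin 1 →₀ ℕ, |((P.coeff e : ℤ) : ℝ)| ≤ H) →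
    1 ≤ H ^ C * ‖MvPolynomial.aeval (fun _ : Fin 1 => ξ) P‖ := by
  have hl : LinearIndependent ℚ (fun _ : Fin 1 => ξ) := by
    rw [linearIndependent_unique_iff]
    exact h0
  obtain ⟨C, hC, hW⟩ := subspaceBound 1 (fun _ => ξ) hl (fun _ => hξ) d
  refine ⟨C, hC, fun H hH P hP hPd hPH => ?_⟩
  by_contra hcon
  push Not at hcon
  obtain ⟨W, hW1, hW2, hW3⟩ := hW H hH
  have h1 := hW3 P ⟨hPd, hPH, hcon⟩
  have h2 : (1 + d).choose 1 = 1 + d := Nat.choose_one_right _
  have h3 : Module.finrank ℚ W = 0 := by omega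
  have hfin : Module.Finite ℚ (MvPolynomial.restrictTotalDegree (Fin 1) ℚ d) := inferInstance
  have hfW : Module.Finite ℚ W := Submodule.finiteDimensional_of_le hW1
  have h4 : W = ⊥ := Submodule.finrank_eq_zero.1 h3
  rw [h4, Submodule.mem_bot] at h1
  apply hP
  exact MvPolynomial.map_injective _ (RingHom.injective_int _) (by rw [h1, map_zero])

section coef

variable {n : ℕ}

/-- the coefficient of `Y ^ m` as a polynomial in the first variable -/
noncomputable def cm (P : MvPolynomial (Fin (n + 1)) ℤ) (m : Fin n →₀ ℕ) :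
    MvPolynomial (Fin 1) ℤ :=
  ∑ j ∈ Finset.range ((MvPolynomial.finSuccEquiv ℤ n P).natDegree + 1),
    MvPolynomial.monomial (Finsupp.single 0 j) (((MvPolynomial.finSuccEquiv ℤ n P).coeff j).coeff m)

theorem coeff_cm (P : MvPolynomial (Fin (n + 1)) ℤ) (m : Fin n →₀ ℕ) (e : Fin 1 →₀ ℕ) :
    (cm P m).coeff e = P.coeff (m.cons (e 0)) := by
  classical
  rw [cm, MvPolynomial.coeff_sum]
  simp only [MvPolynomial.coeff_monomial]
  rw [← MvPolynomial.finSuccEquiv_coeff_coeff]
  have h1 : ∀ j : ℕ, (Finsupp.single (0 : Fin 1) j = e) ↔ j = e 0 := by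
    intro j
    constructor
    · intro h
      rw [← h]
      simp
    · rintro rfl
      refine Finsupp.ext fun i => ?_
      rw [Subsingleton.elim i 0]
      simp
  simp only [h1]
  rw [Finset.sum_ite_eq']
  split_ifs with h
  · rfl
  · rw [Finset.mem_range, not_lt] at h
    rw [Polynomial.coeff_eq_zero_of_natDegree_lt (by omega)]
    simp

theorem natDegree_le_totalDegree (P : MvPolynomial (Fin (n + 1)) ℤ) :
    (MvPolynomial.finSuccEquiv ℤ n P).natDegree ≤ P.totalDegree := by
  rw [MvPolynomial.natDegree_finSuccEquiv]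
  exact MvPolynomial.degreeOf_le_totalDegree _ _

theorem totalDegree_cm (P : MvPolynomial (Fin (n + 1)) ℤ) (m : Fin n →₀ ℕ) :
    (cm P m).totalDegree ≤ P.totalDegree := by
  refine MvPolynomial.totalDegree_finsetSum_le fun j hj => ?_
  rw [Finset.mem_range] at hj
  refine (MvPolynomial.totalDegree_monomial_le _ _).trans ?_
  rw [Finsupp.sum_single_index rfl, id_eq]
  have := natDegree_le_totalDegree P
  omega

theorem exists_cm_ne (P : MvPolynomial (Fin (n + 1)) ℤ) (hP : P ≠ 0) : ∃ m, cm P m ≠ 0 := by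
  obtain ⟨e, he⟩ := MvPolynomial.ne_zero_iff.1 hP
  refine ⟨e.tail, MvPolynomial.ne_zero_iff.2 ⟨Finsupp.single 0 (e 0), ?_⟩⟩
  rw [coeff_cm, Finsupp.single_eq_same, Finsupp.cons_tail]
  exact he

theorem coeff_aeval_cons (ξ : ℂ) (P : MvPolynomial (Fin (n + 1)) ℤ) (m : Fin n →₀ ℕ) :
    (MvPolynomial.aeval (Fin.cons (MvPolynomial.C ξ) MvPolynomial.X :
      Fin (n + 1) → MvPolynomial (Fin n) ℂ) P).coeff m =
      MvPolynomial.aeval (fun _ : Fin 1 => ξ) (cm P m) := by
  classical
  have h1 : MvPolynomial.aeval (Fin.cons (MvPolynomial.C ξ) MvPolynomial.X :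
      Fin (n + 1) → MvPolynomial (Fin n) ℂ) P =
      ∑ j ∈ Finset.range ((MvPolynomial.finSuccEquiv ℤ n P).natDegree + 1),
        MvPolynomial.map (Int.castRingHom ℂ) ((MvPolynomial.finSuccEquiv ℤ n P).coeff j) *
          MvPolynomial.C (ξ ^ j) := by
    have h2 : MvPolynomial.aeval (Fin.cons (MvPolynomial.C ξ) MvPolynomial.X :
      Fin (n + 1) → MvPolynomial (Fin n) ℂ) P = (MvPolynomial.finSuccEquiv ℤ n P).eval₂
        (MvPolynomial.map (Int.castRingHom ℂ)) (MvPolynomial.C ξ) := by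
      induction P using MvPolynomial.induction_on with
      | C a =>
        have e : MvPolynomial.finSuccEquiv ℤ n (MvPolynomial.C a) =
            Polynomial.C (MvPolynomial.C a) := by
          have := (MvPolynomial.finSuccEquiv ℤ n).commutes a
          rw [Polynomial.algebraMap_apply] at this
          exact this
        rw [MvPolynomial.aeval_C, e, Polynomial.eval₂_C, MvPolynomial.map_C]
        simp
      | add p q hp hq => rw [map_add, map_add, Polynomial.eval₂_add, hp, hq]
      | mul_X p i hp =>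
        rw [map_mul, map_mul, Polynomial.eval₂_mul, hp, MvPolynomial.aeval_X]
        congr 1
        refine Fin.cases ?_ (fun i => ?_) i
        · rw [Fin.cons_zero, MvPolynomial.finSuccEquiv_X_zero, Polynomial.eval₂_X]
        · rw [Fin.cons_succ, MvPolynomial.finSuccEquiv_X_succ, Polynomial.eval₂_C,
            MvPolynomial.map_X]
    rw [h2, Polynomial.eval₂_eq_sum_range]
    simp only [map_pow]
  rw [h1, MvPolynomial.coeff_sum, cm, map_sum]
  refine Finset.sum_congr rfl fun j _ => ?_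
  rw [mul_comm, MvPolynomial.coeff_C_mul, MvPolynomial.coeff_map, MvPolynomial.aeval_monomial,
    Finsupp.prod_single_index (h := fun _ k => ξ ^ k) (pow_zero _)]
  simp [mul_comm]

end coef

end Pool.Agent.H81.CC
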