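import Pool.Agent.H81.CC.CCR
import Pool.Agent.H81.CC.Fel

/-!
# CCF: fixed tuples at all heights
-/

set_option autoImplicit false

open Finset Filter

namespace Pool.Agent.H81.CC

open Pool.Agent.H72.BF

theorem append_cast {n : ℕ} {α : Type} (u : α) (v : Fin n → α) :
    (Fin.append (fun _ : Fin 1 => u) v : Fin (1 + n) → α) ∘ Fin.cast (Nat.add_comm n 1) =
      (Fin.cons u v : Fin (n + 1) → α) := by
  funext i
  refine Fin.cases ?_ (fun i => ?_) i
  · have : Fin.cast (Nat.add_comm n 1) 0 = Fin.castAdd n 0 := by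
      ext
      simp
    rw [Function.comp_apply, this, Fin.append_left, Fin.cons_zero]
  · have : Fin.cast (Nat.add_comm n 1) i.succ = Fin.natAdd 1 i := by
      ext
      simp [Nat.add_comm]
    rw [Function.comp_apply, this, Fin.append_right, Fin.cons_succ]

/-- coefficients after an injective renaming from `Fin (n + 1)` to `Fin (1 + n)` -/
theorem coeff_rename_cast {n : ℕ} (P : MvPolynomial (Fin (n + 1)) ℤ) (H : ℝ)
    (hP : ∀ e : Fin (n + 1) →₀ ℕ, |((P.coeff e : ℤ) : ℝ)| ≤ H) (e : Fin (1 + n) →₀ ℕ) :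
    |(((MvPolynomial.rename (Fin.cast (Nat.add_comm n 1)) P).coeff e : ℤ) : ℝ)| ≤ H := by
  have h5 : e = (e.mapDomain (Fin.cast (Nat.add_comm n 1).symm)).mapDomain
      (Fin.cast (Nat.add_comm n 1)) := by
    rw [← Finsupp.mapDomain_comp]
    have : Fin.cast (Nat.add_comm n 1) ∘ Fin.cast (Nat.add_comm n 1).symm = id := by
      funext i
      simp
    rw [this, Finsupp.mapDomain_id]
  rw [h5, MvPolynomial.coeff_rename_mapDomain _ (Fin.cast_injective _)]
  exact hP _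

theorem ccf (hCCR : T_CCR) : T_CCF := by
  classical
  intro n d
  obtain ⟨dl, N1, hdl, hR⟩ := hCCR n d
  refine ⟨dl, N1, hdl, fun ξ hξ0 hξa hreal => ?_⟩
  obtain ⟨A, hA, hF⟩ := feldman ξ hξ0 hξa d
  obtain ⟨C, hC, hmain⟩ := hR A
  obtain ⟨c, hc⟩ := pow_unbounded_of_one_lt ‖ξ‖ (one_lt_two)
  refine ⟨(c + 1 : ℕ) * C, by positivity, ?_⟩
  intro N hN x y hNR hSm H hH hNH P hP hPd hPH
  by_contra hcon
  push Not at hcon
  have hH1 : (1 : ℝ) ≤ H := by linarith
  have hH0 : (0 : ℝ) ≤ H := by linarith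
  have hHH : H ≤ H ^ (c + 1) := by
    calc H = H ^ 1 := (pow_one _).symm
      _ ≤ H ^ (c + 1) := pow_le_pow_right₀ hH1 (by omega)
  have hξH : ‖ξ‖ ≤ H ^ (c + 1) := by
    calc ‖ξ‖ ≤ 2 ^ c := hc.le
      _ ≤ H ^ c := pow_le_pow_left₀ (by norm_num) hH _
      _ ≤ H ^ (c + 1) := pow_le_pow_right₀ hH1 (by omega)
  apply hmain N hN (H ^ (c + 1)) (hH.trans hHH) (hNH.trans hHH) ξ hξH hreal x y hNR hSm
  obtain ⟨m, hm⟩ := exists_cm_ne P hP
  refine ⟨MvPolynomial.rename (Fin.cast (Nat.add_comm n 1)) P,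
    (MvPolynomial.totalDegree_rename_le _ _).trans hPd,
    fun e => (coeff_rename_cast P H hPH e).trans hHH, ?_, m, ?_⟩
  · rw [MvPolynomial.aeval_rename, append_cast]
    have h1 : (H ^ (c + 1)) ^ C = H ^ (((c + 1 : ℕ) : ℝ) * C) := by
      rw [← Real.rpow_natCast, ← Real.rpow_mul hH0]
    rw [h1]
    exact hcon
  · rw [MvPolynomial.aeval_rename]
    have e1 : (Fin.append (fun _ : Fin 1 => MvPolynomial.C ξ) MvPolynomial.X :
        Fin (1 + n) → MvPolynomial (Fin n) ℂ) ∘ Fin.cast (Nat.add_comm n 1) =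
        (Fin.cons (MvPolynomial.C ξ) MvPolynomial.X : Fin (n + 1) → MvPolynomial (Fin n) ℂ) :=
      append_cast _ _
    rw [e1, coeff_aeval_cons]
    refine hF (H ^ (c + 1)) (hH.trans hHH) (cm P m) hm ((totalDegree_cm P m).trans hPd)
      (fun e => ?_)
    rw [coeff_cm]
    exact (hPH _).trans hHH

end Pool.Agent.H81.CC
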