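import Pool.Agent.H21.UE.Basic

/-!
# Degree and height of a polynomial after a substitution of linear forms
-/

set_option autoImplicit false

open MvPolynomial

namespace Pool.Agent.H81.CC

theorem totalDegree_aeval_le {σ τ R : Type*} [CommRing R] [Fintype σ]
    (f : σ → MvPolynomial τ R)
    (hf : ∀ i, (f i).totalDegree ≤ 1) (p : MvPolynomial σ R) :
    (aeval f p).totalDegree ≤ p.totalDegree := by
  classical
  rw [aeval_def, eval₂_eq']
  refine totalDegree_finsetSum_le fun J hJ => ?_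
  refine (totalDegree_mul _ _).trans ?_
  have h1 : ((algebraMap R (MvPolynomial τ R)) (p.coeff J)).totalDegree = 0 := by
    rw [algebraMap_eq]
    exact totalDegree_C _
  rw [h1, zero_add]
  refine (totalDegree_finsetProd _ _).trans ?_
  refine le_trans (Finset.sum_le_sum fun i _ => (totalDegree_pow _ _).trans
    (Nat.mul_le_mul_left (J i) (hf i))) ?_
  simp only [mul_one]
  have h2 := le_totalDegree hJ
  rw [Finsupp.sum_fintype _ _ (fun _ => rfl)] at h2
  exact h2

/-- the height after a substitution -/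
theorem exists_height (σ τ : Type) [Fintype σ] [Fintype τ] (D : ℕ) : ∃ K : ℕ,
    ∀ (f : σ → MvPolynomial τ ℤ), (∀ i, Pool.Agent.H21.UE.l1 (f i) ≤ 2) →
    ∀ (p : MvPolynomial σ ℤ) (H : ℝ), 2 ≤ H → p.totalDegree ≤ D →
      (∀ e, |((p.coeff e : ℤ) : ℝ)| ≤ H) →
      ∀ e, |(((aeval f p).coeff e : ℤ) : ℝ)| ≤ H ^ K := by
  classical
  set s : Finset (σ →₀ ℕ) := Finset.Iic (Finsupp.equivFunOnFinite.symm fun _ => D) with hs
  set K : ℕ := s.card * 2 ^ D with hK
  refine ⟨K + 1, fun f hf p H hH hD hp e => ?_⟩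
  refine (Pool.Agent.H21.UE.abs_coeff_le_l1 _ e).trans ?_
  refine (Pool.Agent.H21.UE.l1_aeval_le f (fun _ => 2) hf p).trans ?_
  have hsub : p.support ⊆ s := by
    intro J hJ
    rw [hs, Finset.mem_Iic]
    intro i
    have h2 := le_totalDegree hJ
    rw [Finsupp.sum_fintype _ _ (fun _ => rfl)] at h2
    have h3 : J i ≤ ∑ i, J i := Finset.single_le_sum (f := fun i => J i)
      (fun _ _ => Nat.zero_le _) (Finset.mem_univ i)
    simp only [Finsupp.equivFunOnFinite_symm_apply_apply]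
    omega
  have hb : ∀ J ∈ p.support, |((p.coeff J : ℤ) : ℝ)| * ∏ i, (2 : ℝ) ^ J i ≤ H * 2 ^ D := by
    intro J hJ
    have h2 := le_totalDegree hJ
    rw [Finsupp.sum_fintype _ _ (fun _ => rfl)] at h2
    rw [Finset.prod_pow_eq_pow_sum]
    refine mul_le_mul (hp J) ?_ (by positivity) (by linarith)
    exact pow_le_pow_right₀ (by norm_num) (h2.trans hD)
  have h1 : ∑ J ∈ p.support, |((p.coeff J : ℤ) : ℝ)| * ∏ i, (2 : ℝ) ^ J i ≤
      s.card * (H * 2 ^ D) := by
    refine (Finset.sum_le_card_nsmul _ _ _ hb).trans ?_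
    rw [nsmul_eq_mul]
    refine mul_le_mul_of_nonneg_right ?_ (by positivity)
    exact_mod_cast Finset.card_le_card hsub
  refine h1.trans ?_
  have h3 : (K : ℝ) ≤ H ^ K := by
    calc (K : ℝ) ≤ (2 : ℝ) ^ K := by exact_mod_cast Nat.lt_two_pow_self.le
      _ ≤ H ^ K := pow_le_pow_left₀ (by norm_num) hH _
  have h4 : (s.card : ℝ) * (H * 2 ^ D) = K * H := by
    rw [hK]
    push_cast
    ring
  rw [h4, pow_succ]
  exact mul_le_mul_of_nonneg_right h3 (by linarith)

end Pool.Agent.H81.CC
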