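import Pool.Agent.H81.CC.CCR
import Pool.Agent.H81.CC.Sub

/-!
# CCU: logarithms of Gaussian integers near `N`, uniform version
-/

set_option autoImplicit false

open Finset Filter

namespace Pool.Agent.H81.CC

open Pool.Agent.H72.BF

/-- a small value of a nonzero integer polynomial makes the tuple bad relative to any parameters -/
theorem badRN_of_small {r n : ℕ} (ξ : Fin r → ℂ) (d : ℕ) (C H : ℝ) (a : Fin n → ℂ)
    (P : MvPolynomial (Fin n) ℤ) (hP : P ≠ 0) (hd : P.totalDegree ≤ d) (hH0 : 0 ≤ H)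
    (hH : ∀ e : Fin n →₀ ℕ, |((P.coeff e : ℤ) : ℝ)| ≤ H)
    (hs : H ^ C * ‖MvPolynomial.aeval a P‖ < 1) : badRN ξ d 0 C H a := by
  classical
  have hinj : Function.Injective (Fin.natAdd r : Fin n → Fin (r + n)) := Fin.natAdd_injective n r
  obtain ⟨m, hm⟩ := MvPolynomial.ne_zero_iff.1 hP
  refine ⟨MvPolynomial.rename (Fin.natAdd r) P, (MvPolynomial.totalDegree_rename_le _ _).trans hd,
    ?_, ?_, m, ?_⟩
  · intro e
    by_cases he : (MvPolynomial.rename (Fin.natAdd r) P).coeff e = 0
    · rw [he]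
      simpa using hH0
    · obtain ⟨u, rfl, -⟩ := MvPolynomial.coeff_rename_ne_zero _ _ _ he
      rw [MvPolynomial.coeff_rename_mapDomain _ hinj]
      exact hH u
  · rw [MvPolynomial.aeval_rename]
    have e1 : Fin.append ξ a ∘ Fin.natAdd r = a := by
      funext i
      rw [Function.comp_apply, Fin.append_right]
    rw [e1]
    exact hs
  · rw [MvPolynomial.aeval_rename]
    have e1 : (Fin.append (fun i => MvPolynomial.C (ξ i)) MvPolynomial.X :
        Fin (r + n) → MvPolynomial (Fin n) ℂ) ∘ Fin.natAdd r = MvPolynomial.X := by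
      funext i
      rw [Function.comp_apply, Fin.append_right]
    have e2 : MvPolynomial.aeval (MvPolynomial.X : Fin n → MvPolynomial (Fin n) ℂ) P =
        MvPolynomial.map (Int.castRingHom ℂ) P := by
      clear hd hH hs hm hP e1
      induction P using MvPolynomial.induction_on with
      | C a => simp
      | add p q hp hq => rw [map_add, map_add, hp, hq]
      | mul_X p i hp => rw [map_mul, map_mul, hp, MvPolynomial.aeval_X, MvPolynomial.map_X]
    rw [e1, e2, MvPolynomial.coeff_map, Real.rpow_zero, one_mul]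
    simp only [eq_intCast, Complex.norm_intCast]
    exact_mod_cast Int.one_le_abs hm

theorem log_shift {N : ℕ} (hN : 16 ≤ N) {dl : ℝ} (hdl : dl ≤ 1 / 2) {x y : ℤ}
    (hx : |(x : ℝ)| ≤ (N : ℝ) ^ dl) (hy : |(y : ℝ)| ≤ (N : ℝ) ^ dl) :
    Complex.log ((N : ℂ) + (x : ℂ) + (y : ℂ) * Complex.I) = (Real.log N : ℝ) + gl N x y := by
  have h1 := re_pos_of_small (small_arg hN hdl hx hy)
  have hN0 : (0 : ℝ) < N := by
    have : (16 : ℝ) ≤ N := by exact_mod_cast hN
    linarith
  have hNc : (N : ℂ) ≠ 0 := by exact_mod_cast hN0.ne'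
  have h2 : (1 + ((x : ℂ) + (y : ℂ) * Complex.I) / N) ≠ 0 := by
    intro h
    rw [h] at h1
    simp at h1
  rw [gl, ← Complex.log_ofReal_mul hN0 h2]
  congr 1
  push_cast
  field_simp
  ring

theorem ccu (hGEN : T_GEN) (hGIC : Pool.Agent.H72.GP.T_GIC) : T_CCU := by
  classical
  intro n d
  rcases n with - | n
  · refine ⟨1, 1, 1, one_pos, one_pos, ?_⟩
    intro N hN x y _ _ H hH P hP hd hPH
    obtain ⟨a, rfl⟩ := MvPolynomial.C_surjective (Fin 0) P
    have ha : a ≠ 0 := by
      intro h
      apply hP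
      rw [h, map_zero]
    rw [MvPolynomial.aeval_C, Real.rpow_one]
    simp only [eq_intCast, Complex.norm_intCast]
    have h1 : (1 : ℝ) ≤ |(a : ℝ)| := by exact_mod_cast Int.one_le_abs ha
    have h2 : (1 : ℝ) ≤ H := le_trans (by exact_mod_cast hN) hH
    nlinarith
  obtain ⟨D, hD⟩ := hGEN 0 (n + 1) (n + 1) (n + 1 + n) d (by omega)
  obtain ⟨dl, N1, CG, hdl0, hCG, hG⟩ := hGIC (n + 1) D
  obtain ⟨K, hK⟩ := exists_height (Fin (n + 1 + n)) (Fin (n + 1) ⊕ Fin (n + 1)) D
  obtain ⟨C, hC, hmain⟩ := hD 0 ((K + 1 : ℕ) * CG)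
  refine ⟨min dl (1 / 2), max N1 16, C, lt_min hdl0 (by norm_num), hC, ?_⟩
  intro N hN x y hNR hSm H hNH P hP hPd hPH
  by_contra hcon
  push Not at hcon
  have hN1 : N1 ≤ N := (le_max_left _ _).trans hN
  have hN16 : 16 ≤ N := (le_max_right _ _).trans hN
  have hNr : (16 : ℝ) ≤ N := by exact_mod_cast hN16
  have hd : min dl (1 / 2) ≤ (1 / 2 : ℝ) := min_le_right _ _
  have hH2 : (2 : ℝ) ≤ H := by linarith
  have hH0 : (0 : ℝ) ≤ H := by linarith
  set lam : Fin (n + 1) → ℂ := fun k =>
    Complex.log ((N : ℂ) + (x k : ℂ) + (y k : ℂ) * Complex.I) with hlam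
  set g : Fin (n + 1) → ℂ := fun k =>
    Complex.log (1 + ((x k : ℂ) + (y k : ℂ) * Complex.I) / N) with hg
  set g' : Fin (n + 1) → ℂ := fun k =>
    Complex.log (1 + ((x k : ℂ) - (y k : ℂ) * Complex.I) / N) with hg'
  have hlg : ∀ k, lam k = (Real.log N : ℝ) + g k := fun k =>
    log_shift hN16 hd (hSm k).1 (hSm k).2
  have hlg' : ∀ k, (starRingEnd ℂ) (lam k) = (Real.log N : ℝ) + g' k := by
    intro k
    rw [hlg k, map_add, Complex.conj_ofReal]
    congr 1
    exact conj_gl hN16 hd (hSm k).1 (hSm k).2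
  have hnorm : ∀ k, ‖lam k‖ ≤ H := by
    intro k
    rw [hlg k]
    refine (norm_add_le _ _).trans ?_
    have h1 : ‖g k‖ ≤ 1 := norm_gl_le hN16 hd (hSm k).1 (hSm k).2
    have h2 : ‖((Real.log N : ℝ) : ℂ)‖ ≤ N - 1 := by
      rw [Complex.norm_real, Real.norm_eq_abs, abs_of_nonneg (Real.log_nonneg (by linarith))]
      exact Real.log_le_sub_one_of_pos (by linarith)
    linarith
  have hbad : badRN (fun i : Fin 0 => (0 : ℂ)) d 0 C H lam :=
    badRN_of_small _ d C H lam P hP hPd hH0 hPH hcon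
  have hbad' : badRN (fun i : Fin 0 => (0 : ℂ)) d 0 C H (fun k => (starRingEnd ℂ) (lam k)) := by
    have h1 := badRN_conj _ d 0 C H _ hbad
    rwa [show (fun i : Fin 0 => (starRingEnd ℂ) (0 : ℂ)) = fun _ => (0 : ℂ) from
      funext fun i => i.elim0] at h1
  refine hmain H hH2 (fun _ => 0) lam (fun k => (starRingEnd ℂ) (lam k)) (fun i => i.elim0)
    hnorm (fun k => by rw [Complex.norm_conj]; exact hnorm k)
    (fun _ i => i.elim0) (fun i k => if i = Fin.castAdd n k then 1 else 0)
    (fun i k => (Fin.cons 0 (fun j : Fin n => if i = Fin.natAdd (n + 1) j then 1 else 0) :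
      Fin (n + 1) → ℤ) k - (if k = 0 then 1 else 0)) (fun i k => k.elim0)
    (fun i k => by split_ifs <;> simp <;> linarith)
    (fun i k => by
      refine Fin.cases ?_ (fun j => ?_) k
      · simp
        linarith
      · rw [Fin.cons_succ, if_neg (Fin.succ_ne_zero j)]
        split_ifs <;> simp <;> linarith) ?_ ⟨hbad, hbad'⟩
  intro H' hH' R hR0 hRD hRH
  have hH'1 : (1 : ℝ) ≤ H' := by linarith
  have hH'0 : (0 : ℝ) ≤ H' := by linarith
  -- the combinations
  have e1 : (fun i : Fin (n + 1 + n) => comb (fun i : Fin 0 => (i.elim0 : ℤ))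
      (fun k => if i = Fin.castAdd n k then 1 else 0)
      (fun k => (Fin.cons 0 (fun j : Fin n => if i = Fin.natAdd (n + 1) j then 1 else 0) :
        Fin (n + 1) → ℤ) k - (if k = 0 then 1 else 0)) (fun _ : Fin 0 => (0 : ℂ)) lam
      (fun k => (starRingEnd ℂ) (lam k))) =
      Fin.append (fun k => g k - g' 0) (fun j : Fin n => g' j.succ - g' 0) := by
    have hsub : ∀ (w : Fin (n + 1) → ℤ) (z : Fin (n + 1) → ℂ),
        ∑ k, ((w k - (if k = 0 then 1 else 0) : ℤ) : ℂ) * z k = ∑ k, (w k : ℂ) * z k - z 0 := by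
      intro w z
      have h1 : ∀ k, ((w k - (if k = 0 then 1 else 0) : ℤ) : ℂ) * z k =
          (w k : ℂ) * z k - (if k = 0 then z k else 0) := by
        intro k
        split_ifs with h
        · push_cast
          ring
        · push_cast
          ring
      rw [Finset.sum_congr rfl fun k _ => h1 k, Finset.sum_sub_distrib]
      simp
    funext i
    refine Fin.addCases (fun i => ?_) (fun i => ?_) i
    · rw [Fin.append_left, comb, sel_eq (Fin.castAdd_injective (n + 1) n), hsub,
        Fin.sum_univ_succ (n := n), Fin.cons_zero]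
      simp only [Fin.cons_succ]
      rw [sel_ne, hlg, hlg']
      · simp
        ring
      · intro k h
        have := congrArg Fin.val h
        simp only [Fin.val_castAdd, Fin.val_natAdd] at this
        omega
    · rw [Fin.append_right, comb, sel_ne, hsub, Fin.sum_univ_succ (n := n), Fin.cons_zero]
      · simp only [Fin.cons_succ]
        rw [sel_eq (Fin.natAdd_injective n (n + 1)), hlg', hlg']
        simp
      · intro k h
        have := congrArg Fin.val h
        simp only [Fin.val_castAdd, Fin.val_natAdd] at this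
        omega
  rw [e1]
  set S : Fin (n + 1 + n) → MvPolynomial (Fin (n + 1) ⊕ Fin (n + 1)) ℤ :=
    Fin.append (fun k => MvPolynomial.X (Sum.inl k) - MvPolynomial.X (Sum.inr 0))
      (fun j : Fin n => MvPolynomial.X (Sum.inr j.succ) - MvPolynomial.X (Sum.inr 0)) with hS
  have hS1 : ∀ i, (S i).totalDegree ≤ 1 := by
    intro i
    refine Fin.addCases (fun i => ?_) (fun i => ?_) i
    · rw [hS, Fin.append_left]
      refine (MvPolynomial.totalDegree_sub _ _).trans ?_
      rw [MvPolynomial.totalDegree_X, MvPolynomial.totalDegree_X, max_self]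
    · rw [hS, Fin.append_right]
      refine (MvPolynomial.totalDegree_sub _ _).trans ?_
      rw [MvPolynomial.totalDegree_X, MvPolynomial.totalDegree_X, max_self]
  have hl : ∀ a b : Fin (n + 1) ⊕ Fin (n + 1), Pool.Agent.H21.UE.l1
      (MvPolynomial.X a - MvPolynomial.X b : MvPolynomial _ ℤ) ≤ 2 := by
    intro a b
    rw [sub_eq_add_neg]
    refine (Pool.Agent.H21.UE.l1_add_le _ _).trans ?_
    rw [Pool.Agent.H21.UE.l1_neg, Pool.Agent.H21.UE.l1_X, Pool.Agent.H21.UE.l1_X]
    norm_num
  have hS2 : ∀ i, Pool.Agent.H21.UE.l1 (S i) ≤ 2 := by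
    intro i
    refine Fin.addCases (fun i => ?_) (fun i => ?_) i
    · rw [hS, Fin.append_left]
      exact hl _ _
    · rw [hS, Fin.append_right]
      exact hl _ _
  have hval : MvPolynomial.aeval (Sum.elim g g') (MvPolynomial.aeval S R) =
      MvPolynomial.aeval (Fin.append (fun k => g k - g' 0) (fun j : Fin n => g' j.succ - g' 0))
        R := by
    rw [← AlgHom.comp_apply, MvPolynomial.comp_aeval]
    congr 2
    funext i
    refine Fin.addCases (fun i => ?_) (fun i => ?_) i
    · rw [hS, Fin.append_left, Fin.append_left, map_sub, MvPolynomial.aeval_X,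
        MvPolynomial.aeval_X, Sum.elim_inl, Sum.elim_inr]
    · rw [hS, Fin.append_right, Fin.append_right, map_sub, MvPolynomial.aeval_X,
        MvPolynomial.aeval_X, Sum.elim_inr, Sum.elim_inr]
  have hne : MvPolynomial.aeval S R ≠ 0 := by
    intro h
    apply hR0
    set T : Fin (n + 1) ⊕ Fin (n + 1) → MvPolynomial (Fin (n + 1 + n)) ℤ :=
      Sum.elim (fun k => MvPolynomial.X (Fin.castAdd n k))
        (Fin.cons 0 (fun j : Fin n => MvPolynomial.X (Fin.natAdd (n + 1) j))) with hT
    have h1 : MvPolynomial.aeval T (MvPolynomial.aeval S R) = R := by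
      rw [← AlgHom.comp_apply, MvPolynomial.comp_aeval]
      have h2 : (fun i => MvPolynomial.aeval T (S i)) = MvPolynomial.X := by
        funext i
        refine Fin.addCases (fun i => ?_) (fun i => ?_) i
        · rw [hS, Fin.append_left, map_sub, MvPolynomial.aeval_X, MvPolynomial.aeval_X, hT,
            Sum.elim_inl, Sum.elim_inr, Fin.cons_zero, sub_zero]
        · rw [hS, Fin.append_right, map_sub, MvPolynomial.aeval_X, MvPolynomial.aeval_X, hT,
            Sum.elim_inr, Sum.elim_inr, Fin.cons_zero, Fin.cons_succ, sub_zero]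
      rw [h2]
      exact MvPolynomial.aeval_X_left_apply R
    rw [← h1, h, map_zero]
  have hHK : H' ≤ H' ^ (K + 1) := by
    calc H' = H' ^ 1 := (pow_one _).symm
      _ ≤ H' ^ (K + 1) := pow_le_pow_right₀ hH'1 (by omega)
  have h9 := hG N hN1 x y hNR.1 hNR.2 (fun k => by
      have h1 : (N : ℝ) ^ (min dl (1 / 2)) ≤ (N : ℝ) ^ dl :=
        Real.rpow_le_rpow_of_exponent_le (by linarith) (min_le_left _ _)
      exact ⟨(hSm k).1.trans h1, (hSm k).2.trans h1⟩) (H' ^ (K + 1))
    ((hNH.trans hH').trans hHK) (MvPolynomial.aeval S R) hne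
    ((totalDegree_aeval_le S hS1 R).trans hRD)
    (fun e => (hK S hS2 R H' (by linarith) hRD hRH e).trans
      (pow_le_pow_right₀ hH'1 (by omega)))
  have e3 : MvPolynomial.aeval (Sum.elim
      (fun k => Complex.log (1 + ((x k : ℂ) + (y k : ℂ) * Complex.I) / N))
      (fun k => Complex.log (1 + ((x k : ℂ) - (y k : ℂ) * Complex.I) / N)))
      (MvPolynomial.aeval S R) = MvPolynomial.aeval
        (Fin.append (fun k => g k - g' 0) (fun j : Fin n => g' j.succ - g' 0)) R := hval
  rw [e3, ← Real.rpow_natCast, ← Real.rpow_mul hH'0] at h9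
  exact h9

end Pool.Agent.H81.CC
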