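import Pool.Agent.H81.CC.Defs
import Pool.Agent.H72.PSV.LFTQ

/-!
# GEN: elimination at one height
-/

set_option autoImplicit false

open Finset Filter

namespace Pool.Agent.H81.CC

open Pool.Agent.H72.PSV Pool.Agent.H72.BF

/-- integer combinations in the residue field -/
theorem ev_comb {H : ℕ → ℝ} (P : Pkg H) {r n n' : ℕ} (U : ℕ → Fin r → ℤ) (V : ℕ → Fin n → ℤ)
    (V' : ℕ → Fin n' → ℤ) (ξ : ℕ → Fin r → ℂ) (y : ℕ → Fin n → ℂ) (y' : ℕ → Fin n' → ℂ)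
    (hU : ∀ j k, |((U j k : ℤ) : ℝ)| ≤ H j) (hV : ∀ j k, |((V j k : ℤ) : ℝ)| ≤ H j)
    (hV' : ∀ j k, |((V' j k : ℤ) : ℝ)| ≤ H j)
    (hξ : ∀ k, (fun j => ξ j k) ∈ P.O) (hy : ∀ k, (fun j => y j k) ∈ P.O)
    (hy' : ∀ k, (fun j => y' j k) ∈ P.O) :
    (fun j => comb (U j) (V j) (V' j) (ξ j) (y j) (y' j)) ∈ P.O ∧
    ∀ W : Submodule P.kk P.F, (∀ k, P.ev (fun j => ξ j k) ∈ W) → (∀ k, P.ev (fun j => y j k) ∈ W) →
      (∀ k, P.ev (fun j => y' j k) ∈ W) →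
      P.ev (fun j => comb (U j) (V j) (V' j) (ξ j) (y j) (y' j)) ∈ W := by
  classical
  have key : ∀ {q : ℕ} (A : ℕ → Fin q → ℤ) (z : ℕ → Fin q → ℂ),
      (∀ j k, |((A j k : ℤ) : ℝ)| ≤ H j) → (∀ k, (fun j => z j k) ∈ P.O) →
      (fun j => ∑ k, (A j k : ℂ) * z j k) ∈ P.O ∧
      ∀ W : Submodule P.kk P.F, (∀ k, P.ev (fun j => z j k) ∈ W) →
        P.ev (fun j => ∑ k, (A j k : ℂ) * z j k) ∈ W := by
    intro q A z hA hz
    have hbd : ∀ k, P.Bd (fun j => A j k) := fun k => P.bd_of_le 1 fun j => by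
      rw [pow_one]; exact hA j k
    have hO : ∀ k, (fun j => (A j k : ℂ) * z j k) ∈ P.O := fun k => P.O.mul_mem (hbd k) (hz k)
    have e : (fun j => ∑ k, (A j k : ℂ) * z j k) = ∑ k, (fun j => (A j k : ℂ) * z j k) := by
      funext j
      rw [Finset.sum_apply]
    constructor
    · rw [e]
      exact P.O.sum_mem fun k _ => hO k
    · intro W hW
      rw [e, P.ev_sum _ _ (fun k _ => hO k)]
      refine W.sum_mem fun k _ => ?_
      have e1 : P.ev (fun j => (A j k : ℂ) * z j k) =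
          (⟨P.evZ (fun j => A j k), P.evZ_mem (hbd k)⟩ : P.kk) • P.ev (fun j => z j k) := by
        have := P.ev_mul (hbd k) (hz k)
        exact this
      rw [e1]
      exact W.smul_mem _ (hW k)
  obtain ⟨a1, a2⟩ := key U ξ hU hξ
  obtain ⟨b1, b2⟩ := key V y hV hy
  obtain ⟨c1, c2⟩ := key V' y' hV' hy'
  have e : (fun j => comb (U j) (V j) (V' j) (ξ j) (y j) (y' j)) =
      (fun j => ∑ k, (U j k : ℂ) * ξ j k) + (fun j => ∑ k, (V j k : ℂ) * y j k) +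
        (fun j => ∑ k, (V' j k : ℂ) * y' j k) := rfl
  constructor
  · rw [e]
    exact P.O.add_mem (P.O.add_mem a1 b1) c1
  · intro W h1 h2 h3
    rw [e, P.ev_add (P.O.add_mem a1 b1) c1, P.ev_add a1 b1]
    exact W.add_mem (W.add_mem (a2 W h1) (b2 W h2)) (c2 W h3)

theorem gen (hPKG : T_PKG) (hEVP : T_EVP) (hCLR : T_CLR) (hRKN : T_RKN) (hELC : T_ELC) :
    T_GEN := by
  classical
  intro r n n' m d hm
  obtain ⟨D, hD⟩ := hELC r n n' m d hm
  refine ⟨D, fun A CG => ?_⟩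
  by_contra hcon
  push Not at hcon
  choose H hH2 ξ y y' hξ hy hy' U V V' hU hV hV' hG hbad hbad' using
    fun j : ℕ => hcon ((j : ℝ) + 1) (by positivity)
  obtain ⟨P⟩ := hPKG H hH2
  have hO : ∀ {q : ℕ} (z : ℕ → Fin q → ℂ), (∀ j k, ‖z j k‖ ≤ H j) → ∀ k,
      (fun j => z j k) ∈ P.O := fun z hz k => P.mem_of_le 1 fun j => by
    rw [pow_one]; exact hz j k
  have r1 := hRKN H P r n d A ξ y hξ (hO y hy) (Filter.Eventually.of_forall hbad)
  have r2 := hRKN H P r n' d A ξ y' hξ (hO y' hy') (Filter.Eventually.of_forall hbad')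
  have hc := fun i : Fin m => ev_comb P (fun j => U j i) (fun j => V j i) (fun j => V' j i) ξ y y'
    (fun j k => hU j i k) (fun j k => hV j i k) (fun j k => hV' j i k) (hO ξ hξ) (hO y hy)
    (hO y' hy')
  obtain ⟨Q, hQ0, hQD, hQ⟩ := hD P.kk P.F _ _ _ r1 r2
    (fun i => P.ev (fun j => comb (U j i) (V j i) (V' j i) (ξ j) (y j) (y' j)))
    (fun W h1 h2 h3 i => (hc i).2 W h1 h2 h3)
  obtain ⟨c, R, hRD, hRH, hR0, hRs⟩ := lift_rel hCLR hEVP P D Q hQ0 hQD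
    (fun j i => comb (U j i) (V j i) (V' j i) (ξ j) (y j) (y' j)) (fun i => (hc i).1) hQ
  set c1 : ℕ := max c 1 with hc1
  set c2 : ℕ := ⌈(c1 : ℝ) * CG⌉₊ with hc2
  obtain ⟨j, hj0, hjs⟩ := (hR0.and (hRs (c2 + 1))).exists
  have hHj := hH2 j
  have hHp : (0 : ℝ) < H j := by linarith
  have hH1 : (1 : ℝ) ≤ H j := by linarith
  have h1 := hG j (H j ^ c1) (by
    calc H j = H j ^ 1 := (pow_one _).symm
      _ ≤ H j ^ c1 := pow_le_pow_right₀ hH1 (le_max_right _ _)) (R j) hj0 (hRD j) (fun e =>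
      (hRH j e).trans (pow_le_pow_right₀ hH1 (le_max_left _ _)))
  have h3 : (H j ^ c1) ^ CG ≤ H j ^ c2 := by
    rw [← Real.rpow_natCast, ← Real.rpow_mul hHp.le, ← Real.rpow_natCast]
    exact Real.rpow_le_rpow_of_exponent_le hH1 (Nat.le_ceil _)
  have h4 : (0 : ℝ) ≤ ‖MvPolynomial.aeval
    (fun i => comb (U j i) (V j i) (V' j i) (ξ j) (y j) (y' j)) (R j)‖ := norm_nonneg _
  have h5 : 1 ≤ H j ^ c2 * ‖MvPolynomial.aeval
    (fun i => comb (U j i) (V j i) (V' j i) (ξ j) (y j) (y' j)) (R j)‖ :=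
    h1.trans (mul_le_mul_of_nonneg_right h3 h4)
  rw [pow_succ] at hjs
  nlinarith

end Pool.Agent.H81.CC
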