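import Pool.Agent.H81.CC.ELC
import Pool.Agent.H81.CC.GEN
import Pool.Agent.H81.CC.CCF
import Pool.Agent.H81.CC.CCU
import Pool.Agent.H72.PSV.All2

/-!
# Assembly of part 2 (MP_3cf473_nt, fixed tuples with a prescribed logarithm)
-/

set_option autoImplicit false

namespace Pool.Agent.H81.CC

theorem pf_GEN : T_GEN :=
  gen Pool.Agent.H29.BF.pkg Pool.Agent.H84.BF.evp Pool.Agent.H57.BF.clr
    (Pool.Agent.H68.PSV.pf_RKN Pool.Agent.H84.BF.evp) pf_ELC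

theorem pf_CCR (hGIC : Pool.Agent.H72.GP.T_GIC) : T_CCR := ccr pf_GEN hGIC

theorem pf_CCF (hGIC : Pool.Agent.H72.GP.T_GIC) : T_CCF := ccf (pf_CCR hGIC)

theorem pf_CCU (hGIC : Pool.Agent.H72.GP.T_GIC) : T_CCU := ccu pf_GEN hGIC

end Pool.Agent.H81.CC
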