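import Pool.Agent.H81.CC.ELB
import Pool.Agent.H81.CC.CCU
import Pool.Agent.H72.PSV.LFTQ

/-!
# CCB: other branches of the logarithms of `1 + b / N`
-/

set_option autoImplicit false

open Finset Filter

namespace Pool.Agent.H81.CC

open Pool.Agent.H72.PSV Pool.Agent.H72.BF

/-- CCB: the numbers `log (1 + b k / N) + c k ξ`, `ξ` imaginary, `b k` natural, `c k` integers -/
def T_CCB : Prop := ∀ n d : ℕ, ∃ (dl : ℝ) (N1 : ℕ) (C : ℝ), 0 < dl ∧ 0 < C ∧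
  ∀ N : ℕ, N1 ≤ N → ∀ b : Fin n → ℕ, Function.Injective b → (∀ k, b k ≠ 0) →
  (∀ k, (b k : ℝ) ≤ (N : ℝ) ^ dl) → ∀ H : ℝ, 2 ≤ H → (N : ℝ) ≤ H →
  ∀ ξ : ℂ, (starRingEnd ℂ) ξ = -ξ → ‖ξ‖ ≤ H → ∀ c : Fin n → ℤ, (∀ k, |((c k : ℤ) : ℝ)| ≤ H) →
  ∀ P : MvPolynomial (Fin n) ℤ, P ≠ 0 →
  P.totalDegree ≤ d → (∀ e : Fin n →₀ ℕ, |((P.coeff e : ℤ) : ℝ)| ≤ H) →
  1 ≤ H ^ C * ‖MvPolynomial.aeval (fun k =>
    ((Real.log (1 + b k / N) : ℝ) : ℂ) + (c k : ℂ) * ξ) P‖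

theorem ccb (hPKG : T_PKG) (hEVP : T_EVP) (hCLR : T_CLR) (hRKN : T_RKN) (hELB : T_ELB)
    (hGIN : T_GIN) : T_CCB := by
  classical
  intro n d
  obtain ⟨D, hD⟩ := hELB n d
  obtain ⟨dl, N1, CG, hdl0, hCG, hG⟩ := hGIN n D
  refine ⟨min dl 1, max N1 1, ?_⟩
  by_contra hcon
  push Not at hcon
  choose N hN b hbinj hb0 hbN H hH2 hNH ξ hξ hξH c hc P hP0 hPd hPH hsmall using
    fun j : ℕ => hcon ((j : ℝ) + 1) (lt_min hdl0 one_pos) (by positivity)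
  obtain ⟨Pk⟩ := hPKG H hH2
  have hN1 : ∀ j, (1 : ℝ) ≤ N j := fun j => by
    exact_mod_cast (le_max_right _ _).trans (hN j)
  have hbN1 : ∀ j k, (b j k : ℝ) ≤ N j := by
    intro j k
    refine (hbN j k).trans ?_
    calc (N j : ℝ) ^ (min dl 1) ≤ (N j : ℝ) ^ (1 : ℝ) :=
          Real.rpow_le_rpow_of_exponent_le (hN1 j) (min_le_right _ _)
      _ = N j := Real.rpow_one _
  set g : ℕ → Fin n → ℂ := fun j k => ((Real.log (1 + b j k / N j) : ℝ) : ℂ) with hg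
  have hgn : ∀ j k, ‖g j k‖ ≤ H j := by
    intro j k
    have h0 : (0 : ℝ) < N j := by linarith [hN1 j]
    have h1 : (0 : ℝ) ≤ (b j k : ℝ) / N j := by positivity
    have h2 : (b j k : ℝ) / N j ≤ 1 := by
      rw [div_le_one h0]
      exact hbN1 j k
    have h3 := Real.log_le_sub_one_of_pos (by linarith : (0 : ℝ) < 1 + (b j k : ℝ) / N j)
    rw [hg]
    simp only
    rw [Complex.norm_real, Real.norm_eq_abs, abs_of_nonneg (Real.log_nonneg (by linarith))]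
    linarith [hH2 j]
  have hgO : ∀ k, (fun j => g j k) ∈ Pk.O := fun k => Pk.mem_of_le 1 fun j => by
    rw [pow_one]; exact hgn j k
  have hξO : ξ ∈ Pk.O := Pk.mem_of_le 1 fun j => by
    rw [pow_one]; exact hξH j
  have hcB : ∀ k, Pk.Bd (fun j => c j k) := fun k => Pk.bd_of_le 1 fun j => by
    rw [pow_one]; exact hc j k
  have hcξ : ∀ k, (fun j => (c j k : ℂ) * ξ j) ∈ Pk.O := fun k => Pk.O.mul_mem (hcB k) hξO
  have hcξe : ∀ k, Pk.ev (fun j => (c j k : ℂ) * ξ j) = Pk.evZ (fun j => c j k) * Pk.ev ξ :=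
    fun k => Pk.ev_mul (hcB k) hξO
  have hyO : ∀ k, (fun j => g j k + (c j k : ℂ) * ξ j) ∈ Pk.O := fun k =>
    Pk.O.add_mem (hgO k) (hcξ k)
  have hyO' : ∀ k, (fun j => g j k - (c j k : ℂ) * ξ j) ∈ Pk.O := fun k =>
    Pk.O.sub_mem (hgO k) (hcξ k)
  have hbad : ∀ j : ℕ, badRN (fun _ : Fin 0 => (0 : ℂ)) d 0 ((j : ℝ) + 1) (H j)
      (fun k => g j k + (c j k : ℂ) * ξ j) := fun j =>
    badRN_of_small _ d _ (H j) _ (P j) (hP0 j) (hPd j) (by linarith [hH2 j]) (hPH j) (hsmall j)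
  have hbad' : ∀ j : ℕ, badRN (fun _ : Fin 0 => (0 : ℂ)) d 0 ((j : ℝ) + 1) (H j)
      (fun k => g j k - (c j k : ℂ) * ξ j) := by
    intro j
    have h1 := badRN_conj _ d 0 _ (H j) _ (hbad j)
    have e1 : (fun i : Fin 0 => (starRingEnd ℂ) (0 : ℂ)) = fun _ => (0 : ℂ) :=
      funext fun i => i.elim0
    have e2 : (fun k => (starRingEnd ℂ) (g j k + (c j k : ℂ) * ξ j)) =
        fun k => g j k - (c j k : ℂ) * ξ j := by
      funext k
      rw [map_add, map_mul, hξ j, hg]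
      simp only [Complex.conj_ofReal, map_intCast]
      ring
    rwa [e1, e2] at h1
  have r1 := hRKN H Pk 0 n d 0 (fun _ _ => 0) _ (fun j i => i.elim0) hyO
    (Filter.Eventually.of_forall hbad)
  have r2 := hRKN H Pk 0 n d 0 (fun _ _ => 0) _ (fun j i => i.elim0) hyO'
    (Filter.Eventually.of_forall hbad')
  have e1 : (fun k => Pk.ev (fun j => g j k + (c j k : ℂ) * ξ j)) = fun k =>
      Pk.ev (fun j => g j k) + algebraMap Pk.kk Pk.F ⟨Pk.evZ (fun j => c j k),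
        Pk.evZ_mem (hcB k)⟩ * Pk.ev ξ := by
    funext k
    have := Pk.ev_add (hgO k) (hcξ k)
    rw [hcξe k] at this
    exact this
  have e2 : (fun k => Pk.ev (fun j => g j k - (c j k : ℂ) * ξ j)) = fun k =>
      Pk.ev (fun j => g j k) - algebraMap Pk.kk Pk.F ⟨Pk.evZ (fun j => c j k),
        Pk.evZ_mem (hcB k)⟩ * Pk.ev ξ := by
    funext k
    have := Pk.ev_sub (hgO k) (hcξ k)
    rw [hcξe k] at this
    exact this
  rw [e1] at r1
  rw [e2] at r2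
  obtain ⟨Q, hQ0, hQD, hQ⟩ := hD Pk.kk Pk.F _ _ _ _ r1 r2
  obtain ⟨c0, R, hRD, hRH, hR0, hRs⟩ := lift_rel hCLR hEVP Pk D Q hQ0 hQD g hgO hQ
  set c1 : ℕ := max c0 1 with hc1
  set c2 : ℕ := ⌈(c1 : ℝ) * CG⌉₊ with hc2
  obtain ⟨j, hj0, hjs⟩ := (hR0.and (hRs (c2 + 1))).exists
  have hHj := hH2 j
  have hHp : (0 : ℝ) < H j := by linarith
  have hH1 : (1 : ℝ) ≤ H j := by linarith
  have h1 := hG (N j) ((le_max_left _ _).trans (hN j)) (b j) (hbinj j) (hb0 j) (fun k =>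
      (hbN j k).trans (Real.rpow_le_rpow_of_exponent_le (hN1 j) (min_le_left _ _)))
    (H j ^ c1) ((hNH j).trans (by
      calc H j = H j ^ 1 := (pow_one _).symm
        _ ≤ H j ^ c1 := pow_le_pow_right₀ hH1 (le_max_right _ _))) (R j) hj0 (hRD j) (fun e =>
      (hRH j e).trans (pow_le_pow_right₀ hH1 (le_max_left _ _)))
  have h3 : (H j ^ c1) ^ CG ≤ H j ^ c2 := by
    rw [← Real.rpow_natCast, ← Real.rpow_mul hHp.le, ← Real.rpow_natCast]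
    exact Real.rpow_le_rpow_of_exponent_le hH1 (Nat.le_ceil _)
  have h4 : (0 : ℝ) ≤ ‖MvPolynomial.aeval (g j) (R j)‖ := norm_nonneg _
  have h5 : 1 ≤ H j ^ c2 * ‖MvPolynomial.aeval (g j) (R j)‖ :=
    h1.trans (mul_le_mul_of_nonneg_right h3 h4)
  rw [pow_succ] at hjs
  nlinarith

end Pool.Agent.H81.CC
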