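import Pool.Agent.H81.CC.ELM
import Pool.Agent.H81.CC.CCU
import Pool.Agent.H72.PSV.All2
import Pool.Agent.H72.GP.Targets2

/-!
# CCM: real and not real numbers together, relative to a real or imaginary number
-/

set_option autoImplicit false

open Finset Filter

namespace Pool.Agent.H81.CC

open Pool.Agent.H72.PSV Pool.Agent.H72.BF

/-- the real and the not real numbers are separated, and the conjugate of `ξ` is `ε ξ` -/
def BdM (ε : ℤ) (r s d : ℕ) (dl : ℝ) (N1 : ℕ) (C : ℝ) : Prop :=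
  ∀ N : ℕ, N1 ≤ N → ∀ (b : Fin r → ℤ) (x y : Fin s → ℤ), (∀ k, b k ≠ 0) →
  Function.Injective b → (∀ k, |((b k : ℤ) : ℝ)| ≤ (N : ℝ) ^ dl) → (∀ k, y k ≠ 0) →
  (∀ j k, j ≠ k → x j = x k → y j ≠ y k ∧ y j ≠ - y k) →
  (∀ k, |((x k : ℤ) : ℝ)| ≤ (N : ℝ) ^ dl ∧ |((y k : ℤ) : ℝ)| ≤ (N : ℝ) ^ dl) →
  ∀ H : ℝ, 2 ≤ H → (N : ℝ) ≤ H → ∀ ξ : ℂ, ‖ξ‖ ≤ H → (starRingEnd ℂ) ξ = (ε : ℂ) * ξ →
  ∀ (c : Fin r → ℤ) (c' : Fin s → ℤ), (∀ k, |((c k : ℤ) : ℝ)| ≤ H) →
  (∀ k, |((c' k : ℤ) : ℝ)| ≤ H) → (ε = 1 → ∀ k, c k = 0) →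
  ∀ P : MvPolynomial (Fin (r + s)) ℤ, P ≠ 0 → P.totalDegree ≤ d →
  (∀ e : Fin (r + s) →₀ ℕ, |((P.coeff e : ℤ) : ℝ)| ≤ H) →
  1 ≤ H ^ C * ‖MvPolynomial.aeval (Fin.append (fun k => gl N (b k) 0 + (c k : ℂ) * ξ)
    (fun k => gl N (x k) (y k) + (c' k : ℂ) * ξ) : Fin (r + s) → ℂ) P‖

theorem gl_zero (N : ℕ) (b : ℤ) : gl N b 0 = Complex.log (1 + (b : ℂ) / N) := by
  rw [gl]
  congr 3
  simp

theorem append_sum {r s : ℕ} {α : Type} (u : Fin r → α) (v v' : Fin s → α) :
    Sum.elim u (Sum.elim v v') ∘ (finSumFinEquiv.symm.trans (Equiv.sumCongr (Equiv.refl _)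
      finSumFinEquiv.symm)) = (Fin.append u (Fin.append v v') : Fin (r + (s + s)) → α) := by
  funext i
  induction i using Fin.addCases with
  | left i => simp
  | right i =>
    rw [Fin.append_right, Function.comp_apply, Equiv.trans_apply,
      finSumFinEquiv_symm_apply_natAdd, Equiv.sumCongr_apply, Sum.map_inr, Sum.elim_inr]
    induction i using Fin.addCases with
    | left i => rw [Fin.append_left, finSumFinEquiv_symm_apply_castAdd, Sum.elim_inl]
    | right i => rw [Fin.append_right, finSumFinEquiv_symm_apply_natAdd, Sum.elim_inr]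

theorem ccms (hPKG : T_PKG) (hEVP : T_EVP) (hCLR : T_CLR) (hRKN : T_RKN) (hELM : T_ELM)
    (hGIM : Pool.Agent.H72.GP.T_GIM) (ε : ℤ) (hε : ε = 1 ∨ ε = -1) (r s d : ℕ) :
    ∃ (dl : ℝ) (N1 : ℕ) (C : ℝ), 0 < dl ∧ 0 < C ∧ BdM ε r s d dl N1 C := by
  classical
  obtain ⟨D, hD⟩ := hELM r s d
  obtain ⟨dl, N1, CG, hdl0, hCG, hG⟩ := hGIM r s D
  refine ⟨min dl (1 / 2), max N1 16, ?_⟩
  by_contra hcon
  push Not at hcon
  have hcon' := fun j : ℕ => hcon ((j : ℝ) + 1) (lt_min hdl0 (by norm_num)) (by positivity)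
  simp only [BdM] at hcon'
  push Not at hcon'
  choose N hN b x y hb0 hbinj hbN hy0 hxy hSm H hH2 hNH ξ hξH hξ c c' hc hc' hcε P hP0 hPd hPH
    hsmall using hcon'
  obtain ⟨Pk⟩ := hPKG H hH2
  have hd : min dl (1 / 2) ≤ (1 / 2 : ℝ) := min_le_right _ _
  have hN16 : ∀ j, 16 ≤ N j := fun j => (le_max_right _ _).trans (hN j)
  have hN1 : ∀ j, (1 : ℝ) ≤ N j := fun j => by
    have := hN16 j
    exact_mod_cast (by omega : 1 ≤ N j)
  have hzero : ∀ j, |(((0 : ℤ)) : ℝ)| ≤ (N j : ℝ) ^ (min dl (1 / 2)) := by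
    intro j
    rw [Int.cast_zero, abs_zero]
    exact Real.rpow_nonneg (by linarith [hN1 j]) _
  set g : ℕ → Fin r → ℂ := fun j k => gl (N j) (b j k) 0 with hg
  set h : ℕ → Fin s → ℂ := fun j k => gl (N j) (x j k) (y j k) with hh
  set h' : ℕ → Fin s → ℂ := fun j k =>
    Complex.log (1 + ((x j k : ℂ) - (y j k : ℂ) * Complex.I) / N j) with hh'
  have hgc : ∀ j k, (starRingEnd ℂ) (g j k) = g j k := by
    intro j k
    rw [hg]
    simp only
    rw [conj_gl (hN16 j) hd (hbN j k) (hzero j), gl_zero]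
    congr 3
    simp
  have hhc : ∀ j k, (starRingEnd ℂ) (h j k) = h' j k := fun j k =>
    conj_gl (hN16 j) hd (hSm j k).1 (hSm j k).2
  have hgn : ∀ j k, ‖g j k‖ ≤ H j := fun j k =>
    (norm_gl_le (hN16 j) hd (hbN j k) (hzero j)).trans (by linarith [hH2 j])
  have hhn : ∀ j k, ‖h j k‖ ≤ H j := fun j k =>
    (norm_gl_le (hN16 j) hd (hSm j k).1 (hSm j k).2).trans (by linarith [hH2 j])
  have hhn' : ∀ j k, ‖h' j k‖ ≤ H j := fun j k => by
    rw [← hhc, Complex.norm_conj]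
    exact hhn j k
  have hO : ∀ (z : ℕ → ℂ), (∀ j, ‖z j‖ ≤ H j) → z ∈ Pk.O := fun z hz => Pk.mem_of_le 1 fun j => by
    rw [pow_one]; exact hz j
  have hgO : ∀ k, (fun j => g j k) ∈ Pk.O := fun k => hO _ fun j => hgn j k
  have hhO : ∀ k, (fun j => h j k) ∈ Pk.O := fun k => hO _ fun j => hhn j k
  have hhO' : ∀ k, (fun j => h' j k) ∈ Pk.O := fun k => hO _ fun j => hhn' j k
  have hξO : ξ ∈ Pk.O := hO _ hξH
  have hcB : ∀ k, Pk.Bd (fun j => c j k) := fun k => Pk.bd_of_le 1 fun j => by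
    rw [pow_one]; exact hc j k
  have hcB' : ∀ k, Pk.Bd (fun j => c' j k) := fun k => Pk.bd_of_le 1 fun j => by
    rw [pow_one]; exact hc' j k
  have heB : ∀ k, Pk.Bd (fun j => ε * c j k) := fun k => (Pk.bd_const ε).mul (hcB k)
  have heB' : ∀ k, Pk.Bd (fun j => ε * c' j k) := fun k => (Pk.bd_const ε).mul (hcB' k)
  -- residues of `z + a ξ`
  have hsum : ∀ (z : ℕ → ℂ) (a : ℕ → ℤ) (hz : z ∈ Pk.O) (ha : Pk.Bd a),
      (fun j => z j + (a j : ℂ) * ξ j) ∈ Pk.O ∧ Pk.ev (fun j => z j + (a j : ℂ) * ξ j) =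
        Pk.ev z + algebraMap Pk.kk Pk.F ⟨Pk.evZ a, Pk.evZ_mem ha⟩ * Pk.ev ξ := by
    intro z a hz ha
    have h1 : (fun j => (a j : ℂ) * ξ j) ∈ Pk.O := Pk.O.mul_mem ha hξO
    have h2 : Pk.ev (fun j => (a j : ℂ) * ξ j) = Pk.evZ a * Pk.ev ξ := Pk.ev_mul ha hξO
    refine ⟨Pk.O.add_mem hz h1, ?_⟩
    have h3 := Pk.ev_add hz h1
    rw [h2] at h3
    exact h3
  have hbad : ∀ j : ℕ, badRN (fun _ : Fin 0 => (0 : ℂ)) d 0 ((j : ℝ) + 1) (H j)
      (Fin.append (fun k => g j k + (c j k : ℂ) * ξ j)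
        (fun k => h j k + (c' j k : ℂ) * ξ j) : Fin (r + s) → ℂ) := fun j =>
    badRN_of_small _ d _ (H j) _ (P j) (hP0 j) (hPd j) (by linarith [hH2 j]) (hPH j) (hsmall j)
  have hbad' : ∀ j : ℕ, badRN (fun _ : Fin 0 => (0 : ℂ)) d 0 ((j : ℝ) + 1) (H j)
      (Fin.append (fun k => g j k + ((ε * c j k : ℤ) : ℂ) * ξ j)
        (fun k => h' j k + ((ε * c' j k : ℤ) : ℂ) * ξ j) : Fin (r + s) → ℂ) := by
    intro j
    have h1 := badRN_conj _ d 0 _ (H j) _ (hbad j)
    have e1 : (fun i : Fin 0 => (starRingEnd ℂ) (0 : ℂ)) = fun _ => (0 : ℂ) :=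
      funext fun i => i.elim0
    have e2 : (fun k => (starRingEnd ℂ) ((Fin.append (fun k => g j k + (c j k : ℂ) * ξ j)
        (fun k => h j k + (c' j k : ℂ) * ξ j) : Fin (r + s) → ℂ) k)) =
        Fin.append (fun k => g j k + ((ε * c j k : ℤ) : ℂ) * ξ j)
          (fun k => h' j k + ((ε * c' j k : ℤ) : ℂ) * ξ j) := by
      funext k
      induction k using Fin.addCases with
      | left k =>
        rw [Fin.append_left, Fin.append_left, map_add, map_mul, hξ j, hgc, map_intCast]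
        push_cast
        ring
      | right k =>
        rw [Fin.append_right, Fin.append_right, map_add, map_mul, hξ j, hhc, map_intCast]
        push_cast
        ring
    rwa [e1, e2] at h1
  have r1 := hRKN H Pk 0 (r + s) d 0 (fun _ _ => 0) _ (fun j i => i.elim0) (fun k => by
    induction k using Fin.addCases with
    | left k =>
      simp only [Fin.append_left]
      exact (hsum _ _ (hgO k) (hcB k)).1
    | right k =>
      simp only [Fin.append_right]
      exact (hsum _ _ (hhO k) (hcB' k)).1) (Filter.Eventually.of_forall hbad)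
  have r2 := hRKN H Pk 0 (r + s) d 0 (fun _ _ => 0) _ (fun j i => i.elim0) (fun k => by
    induction k using Fin.addCases with
    | left k =>
      simp only [Fin.append_left]
      exact (hsum _ _ (hgO k) (heB k)).1
    | right k =>
      simp only [Fin.append_right]
      exact (hsum _ _ (hhO' k) (heB' k)).1) (Filter.Eventually.of_forall hbad')
  have e1 : (fun k : Fin (r + s) => Pk.ev (fun j => (Fin.append (fun k => g j k + (c j k : ℂ) * ξ j)
      (fun k => h j k + (c' j k : ℂ) * ξ j) : Fin (r + s) → ℂ) k)) =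
      Fin.append (fun k => Pk.ev (fun j => g j k) + algebraMap Pk.kk Pk.F
        ⟨Pk.evZ (fun j => c j k), Pk.evZ_mem (hcB k)⟩ * Pk.ev ξ)
        (fun k => Pk.ev (fun j => h j k) + algebraMap Pk.kk Pk.F
        ⟨Pk.evZ (fun j => c' j k), Pk.evZ_mem (hcB' k)⟩ * Pk.ev ξ) := by
    funext k
    induction k using Fin.addCases with
    | left k =>
      simp only [Fin.append_left]
      exact (hsum _ _ (hgO k) (hcB k)).2
    | right k =>
      simp only [Fin.append_right]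
      exact (hsum _ _ (hhO k) (hcB' k)).2
  have e2 : (fun k : Fin (r + s) => Pk.ev (fun j =>
      (Fin.append (fun k => g j k + ((ε * c j k : ℤ) : ℂ) * ξ j)
      (fun k => h' j k + ((ε * c' j k : ℤ) : ℂ) * ξ j) : Fin (r + s) → ℂ) k)) =
      Fin.append (fun k => Pk.ev (fun j => g j k) + algebraMap Pk.kk Pk.F
        ⟨Pk.evZ (fun j => ε * c j k), Pk.evZ_mem (heB k)⟩ * Pk.ev ξ)
        (fun k => Pk.ev (fun j => h' j k) + algebraMap Pk.kk Pk.F
        ⟨Pk.evZ (fun j => ε * c' j k), Pk.evZ_mem (heB' k)⟩ * Pk.ev ξ) := by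
    funext k
    induction k using Fin.addCases with
    | left k =>
      simp only [Fin.append_left]
      exact (hsum _ _ (hgO k) (heB k)).2
    | right k =>
      simp only [Fin.append_right]
      exact (hsum _ _ (hhO' k) (heB' k)).2
  rw [e1] at r1
  rw [e2] at r2
  have hcond : (∃ τ : Pk.kk, τ ≠ 1 ∧ ∀ k, (⟨Pk.evZ (fun j => ε * c j k), Pk.evZ_mem (heB k)⟩ :
      Pk.kk) = τ * ⟨Pk.evZ (fun j => c j k), Pk.evZ_mem (hcB k)⟩) ∨
      ∀ k, (⟨Pk.evZ (fun j => c j k), Pk.evZ_mem (hcB k)⟩ : Pk.kk) = 0 ∧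
        (⟨Pk.evZ (fun j => ε * c j k), Pk.evZ_mem (heB k)⟩ : Pk.kk) = 0 := by
    rcases hε with rfl | rfl
    · right
      intro k
      have h1 : (fun j => c j k) = fun _ => (0 : ℤ) := funext fun j => hcε j rfl k
      have h2 : (fun j => 1 * c j k) = fun _ => (0 : ℤ) := funext fun j => by
        rw [hcε j rfl k, mul_zero]
      have h3 : Pk.evZ (fun _ => (0 : ℤ)) = 0 := by
        rw [Pk.evZ_const]
        simp
      constructor
      · apply Subtype.ext
        change Pk.evZ (fun j => c j k) = 0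
        rw [h1, h3]
      · apply Subtype.ext
        change Pk.evZ (fun j => 1 * c j k) = 0
        rw [h2, h3]
    · left
      refine ⟨-1, ?_, fun k => ?_⟩
      · intro h0
        have h1 := congrArg (Subtype.val) h0
        have h2 : (-1 : Pk.F) = 1 := h1
        have h3 : (2 : Pk.F) = 0 := by
          calc (2 : Pk.F) = 1 - (-1) := by ring
            _ = 0 := by rw [h2, sub_self]
        exact two_ne_zero h3
      · apply Subtype.ext
        change Pk.evZ (fun j => -1 * c j k) = -1 * Pk.evZ (fun j => c j k)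
        have h1 := Pk.evZ_mul (Pk.bd_const (-1)) (hcB k)
        rw [Pk.evZ_const] at h1
        rw [h1]
        simp
  obtain ⟨Q, hQ0, hQD, hQ⟩ := hD Pk.kk Pk.F _ _ _ _ _ _ _ _ _ hcond r1 r2
  have hzO : ∀ i : Fin (r + (s + s)), (fun j => (Fin.append (g j) (Fin.append (h j) (h' j)) :
      Fin (r + (s + s)) → ℂ) i) ∈ Pk.O := by
    intro i
    induction i using Fin.addCases with
    | left i =>
      simp only [Fin.append_left]
      exact hgO i
    | right i =>
      simp only [Fin.append_right]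
      induction i using Fin.addCases with
      | left i =>
        simp only [Fin.append_left]
        exact hhO i
      | right i =>
        simp only [Fin.append_right]
        exact hhO' i
  have hQ' : MvPolynomial.aeval (fun i : Fin (r + (s + s)) => Pk.ev (fun j =>
      (Fin.append (g j) (Fin.append (h j) (h' j)) : Fin (r + (s + s)) → ℂ) i)) Q = 0 := by
    rw [← hQ]
    congr 2
    funext i
    induction i using Fin.addCases with
    | left i => simp only [Fin.append_left]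
    | right i =>
      simp only [Fin.append_right]
      induction i using Fin.addCases with
      | left i => simp only [Fin.append_left]
      | right i => simp only [Fin.append_right]
  obtain ⟨c0, R, hRD, hRH, hR0, hRs⟩ := lift_rel hCLR hEVP Pk D Q hQ0 hQD
    (fun j => Fin.append (g j) (Fin.append (h j) (h' j))) hzO hQ'
  set c1 : ℕ := max c0 1 with hc1
  set c2 : ℕ := ⌈(c1 : ℝ) * CG⌉₊ with hc2
  obtain ⟨j, hj0, hjs⟩ := (hR0.and (hRs (c2 + 1))).exists
  have hHj := hH2 j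
  have hHp : (0 : ℝ) < H j := by linarith
  have hH1 : (1 : ℝ) ≤ H j := by linarith
  set φ : Fin (r + (s + s)) ≃ Fin r ⊕ (Fin s ⊕ Fin s) := finSumFinEquiv.symm.trans
    (Equiv.sumCongr (Equiv.refl _) finSumFinEquiv.symm) with hφ
  have hmin : (N j : ℝ) ^ (min dl (1 / 2)) ≤ (N j : ℝ) ^ dl :=
    Real.rpow_le_rpow_of_exponent_le (hN1 j) (min_le_left _ _)
  have h1 := hG (N j) ((le_max_left _ _).trans (hN j)) (b j) (x j) (y j) (hb0 j) (hbinj j)
    (fun k => (hbN j k).trans hmin) (hy0 j) (hxy j)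
    (fun k => ⟨(hSm j k).1.trans hmin, (hSm j k).2.trans hmin⟩)
    (H j ^ c1) ((hNH j).trans (by
      calc H j = H j ^ 1 := (pow_one _).symm
        _ ≤ H j ^ c1 := pow_le_pow_right₀ hH1 (le_max_right _ _)))
    (MvPolynomial.rename φ (R j)) (fun h0 => hj0 (MvPolynomial.rename_injective _ φ.injective (by
      rw [h0, map_zero]))) ((MvPolynomial.totalDegree_rename_le _ _).trans (hRD j)) (fun e => by
      have h5 : e = (e.mapDomain φ.symm).mapDomain φ := by
        rw [← Finsupp.mapDomain_comp]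
        simp
      rw [h5, MvPolynomial.coeff_rename_mapDomain _ φ.injective]
      exact (hRH j _).trans (pow_le_pow_right₀ hH1 (le_max_left _ _)))
  have e5 : (Sum.elim (fun k => Complex.log (1 + (b j k : ℂ) / N j)) (Sum.elim
      (fun k => Complex.log (1 + ((x j k : ℂ) + (y j k : ℂ) * Complex.I) / N j))
      (fun k => Complex.log (1 + ((x j k : ℂ) - (y j k : ℂ) * Complex.I) / N j)))) =
      Sum.elim (g j) (Sum.elim (h j) (h' j)) := by
    have e6 : (fun k => Complex.log (1 + (b j k : ℂ) / N j)) = g j := by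
      funext k
      exact (gl_zero _ _).symm
    rw [e6]
    rfl
  rw [e5, MvPolynomial.aeval_rename, hφ, append_sum] at h1
  have h3 : (H j ^ c1) ^ CG ≤ H j ^ c2 := by
    rw [← Real.rpow_natCast, ← Real.rpow_mul hHp.le, ← Real.rpow_natCast]
    exact Real.rpow_le_rpow_of_exponent_le hH1 (Nat.le_ceil _)
  set v : ℝ := ‖MvPolynomial.aeval (Fin.append (g j) (Fin.append (h j) (h' j)) :
    Fin (r + (s + s)) → ℂ) (R j)‖ with hv
  have h4 : (0 : ℝ) ≤ v := norm_nonneg _
  have h5 : 1 ≤ H j ^ c2 * v := h1.trans (mul_le_mul_of_nonneg_right h3 h4)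
  rw [pow_succ] at hjs
  nlinarith

theorem BdM.mono {ε : ℤ} {r s d : ℕ} {dl dl' : ℝ} {N1 N1' : ℕ} {C C' : ℝ}
    (h : BdM ε r s d dl N1 C) (h1 : dl' ≤ dl) (h2 : N1 ≤ N1') (h3 : C ≤ C') (h4 : 1 ≤ N1') :
    BdM ε r s d dl' N1' C' := by
  intro N hN b x y hb0 hbinj hbN hy0 hxy hSm H hH2 hNH ξ hξH hξ c c' hc hc' hcε P hP0 hPd hPH
  have hN1 : (1 : ℝ) ≤ N := by exact_mod_cast h4.trans hN
  have hmin : (N : ℝ) ^ dl' ≤ (N : ℝ) ^ dl := Real.rpow_le_rpow_of_exponent_le hN1 h1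
  have h5 := h N (h2.trans hN) b x y hb0 hbinj (fun k => (hbN k).trans hmin) hy0 hxy
    (fun k => ⟨(hSm k).1.trans hmin, (hSm k).2.trans hmin⟩) H hH2 hNH ξ hξH hξ c c' hc hc' hcε P
    hP0 hPd hPH
  exact h5.trans (mul_le_mul_of_nonneg_right
    (Real.rpow_le_rpow_of_exponent_le (by linarith) h3) (norm_nonneg _))

/-- separation of the indices -/
theorem exists_split {n : ℕ} (p : Fin n → Prop) : ∃ (r s : ℕ) (φ : Fin (r + s) ≃ Fin n),
    r + s = n ∧ (∀ i : Fin r, p (φ (Fin.castAdd s i))) ∧ ∀ i : Fin s, ¬ p (φ (Fin.natAdd r i)) := by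
  classical
  set e1 := (Fintype.equivFin {k // p k}).symm with he1
  set e2 := (Fintype.equivFin {k // ¬ p k}).symm with he2
  set φ := (finSumFinEquiv.symm.trans (Equiv.sumCongr e1 e2)).trans (Equiv.sumCompl p) with hφ
  refine ⟨_, _, φ, ?_, fun i => ?_, fun i => ?_⟩
  · have := Fintype.card_congr φ
    rwa [Fintype.card_fin, Fintype.card_fin] at this
  · have : φ (Fin.castAdd _ i) = (e1 i).1 := by simp [hφ]
    rw [this]
    exact (e1 i).2
  · have : φ (Fin.natAdd _ i) = (e2 i).1 := by simp [hφ]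
    rw [this]
    exact (e2 i).2

theorem exists_min {ι : Type} (S : Finset ι) (f : ι → ℝ) (hf : ∀ i ∈ S, 0 < f i) :
    ∃ m : ℝ, 0 < m ∧ ∀ i ∈ S, m ≤ f i := by
  classical
  induction S using Finset.induction_on with
  | empty => exact ⟨1, one_pos, fun i hi => absurd hi (Finset.notMem_empty i)⟩
  | insert a S ha ih =>
    obtain ⟨m, hm, h⟩ := ih fun i hi => hf i (Finset.mem_insert_of_mem hi)
    refine ⟨min m (f a), lt_min hm (hf a (Finset.mem_insert_self _ _)), fun i hi => ?_⟩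
    rcases Finset.mem_insert.1 hi with rfl | hi
    · exact min_le_right _ _
    · exact (min_le_left _ _).trans (h i hi)

theorem ccm (hPKG : T_PKG) (hEVP : T_EVP) (hCLR : T_CLR) (hRKN : T_RKN) (hELM : T_ELM)
    (hGIM : Pool.Agent.H72.GP.T_GIM) : Pool.Agent.H72.GP.T_CCM := by
  classical
  intro n d
  have hall : ∀ q : ℤ × ℕ × ℕ, ∃ (dl : ℝ) (N1 : ℕ) (C : ℝ), 0 < dl ∧ 0 < C ∧
      ((q.1 = 1 ∨ q.1 = -1) → BdM q.1 q.2.1 q.2.2 d dl N1 C) := by
    intro q
    by_cases hq : q.1 = 1 ∨ q.1 = -1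
    · obtain ⟨dl, N1, C, h1, h2, h3⟩ := ccms hPKG hEVP hCLR hRKN hELM hGIM q.1 hq q.2.1 q.2.2 d
      exact ⟨dl, N1, C, h1, h2, fun _ => h3⟩
    · exact ⟨1, 0, 1, one_pos, one_pos, fun h => absurd h hq⟩
  choose dl N1 C hdl hC hB using hall
  set S : Finset (ℤ × ℕ × ℕ) := ({1, -1} : Finset ℤ) ×ˢ
    (Finset.range (n + 1) ×ˢ Finset.range (n + 1)) with hS
  obtain ⟨dl0, hdl0, hdlm⟩ := exists_min S dl fun i _ => hdl i
  refine ⟨dl0, max (S.sup N1) 1, ∑ i ∈ S, C i + 1, hdl0, ?_, ?_⟩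
  · have : 0 ≤ ∑ i ∈ S, C i := Finset.sum_nonneg fun i _ => (hC i).le
    linarith
  intro N hN x y hb0 hxy hSm H hH2 hNH ξ hξH hreal c hc hcr P hP0 hPd hPH
  obtain ⟨r, s, φ, hrs, hR, hI⟩ := exists_split fun k => y k = 0
  obtain ⟨ε, hε, hεξ, hcε⟩ : ∃ ε : ℤ, (ε = 1 ∨ ε = -1) ∧ (starRingEnd ℂ) ξ = (ε : ℂ) * ξ ∧
      (ε = 1 → ∀ k, y k = 0 → c k = 0) := by
    by_cases h1 : (starRingEnd ℂ) ξ = -ξ
    · exact ⟨-1, Or.inr rfl, by rw [h1]; simp, fun h => absurd h (by norm_num)⟩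
    · refine ⟨1, Or.inl rfl, ?_, fun _ k hk => ?_⟩
      · rcases hreal with h2 | h2
        · rw [h2]; simp
        · exact absurd h2 h1
      · rcases hcr k hk with h2 | h2
        · exact absurd h2 h1
        · exact h2
  have hmem : (ε, r, s) ∈ S := by
    rw [hS, Finset.mem_product, Finset.mem_product, Finset.mem_range, Finset.mem_range]
    have h1 : r < n + 1 := by omega
    have h2 : s < n + 1 := by omega
    refine ⟨?_, h1, h2⟩
    rcases hε with rfl | rfl
    · simp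
    · simp
  have hinj : ∀ i j, φ i ≠ φ j ∨ i = j := by
    intro i j
    by_cases h : i = j
    · exact Or.inr h
    · exact Or.inl fun h1 => h (φ.injective h1)
  have hB1 : BdM ε r s d dl0 (max (S.sup N1) 1) (∑ i ∈ S, C i + 1) := by
    refine (hB (ε, r, s) hε).mono (hdlm _ hmem) ((Finset.le_sup hmem).trans (le_max_left _ _)) ?_
      (le_max_right _ _)
    have := Finset.single_le_sum (f := C) (fun i _ => (hC i).le) hmem
    linarith
  have h9 := hB1 N hN (fun k => x (φ (Fin.castAdd s k))) (fun k => x (φ (Fin.natAdd r k)))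
    (fun k => y (φ (Fin.natAdd r k))) (fun k => by
      rcases hb0 (φ (Fin.castAdd s k)) with h1 | h1
      · exact h1
      · exact absurd (hR k) h1) (fun j k hjk => by
      by_contra hne
      have h1 : φ (Fin.castAdd s j) ≠ φ (Fin.castAdd s k) := fun h2 =>
        hne (Fin.castAdd_injective _ _ (φ.injective h2))
      exact (hxy _ _ h1 hjk).1 ((hR j).trans (hR k).symm)) (fun k => (hSm _).1) hI
    (fun j k hjk => hxy _ _ fun h2 => hjk (Fin.natAdd_injective _ _ (φ.injective h2)))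
    (fun k => hSm _) H hH2 hNH ξ hξH hεξ (fun k => c (φ (Fin.castAdd s k)))
    (fun k => c (φ (Fin.natAdd r k))) (fun k => hc _) (fun k => hc _)
    (fun h1 k => hcε h1 _ (hR k)) (MvPolynomial.rename φ.symm P) (fun h0 => hP0
      (MvPolynomial.rename_injective _ φ.symm.injective (by rw [h0, map_zero])))
    ((MvPolynomial.totalDegree_rename_le _ _).trans hPd) (fun e => by
      have h5 : e = (e.mapDomain φ).mapDomain φ.symm := by
        rw [← Finsupp.mapDomain_comp]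
        simp
      rw [h5, MvPolynomial.coeff_rename_mapDomain _ φ.symm.injective]
      exact hPH _)
  rw [MvPolynomial.aeval_rename] at h9
  have e1 : (Fin.append (fun k => gl N (x (φ (Fin.castAdd s k))) 0 +
      (c (φ (Fin.castAdd s k)) : ℂ) * ξ) (fun k => gl N (x (φ (Fin.natAdd r k)))
      (y (φ (Fin.natAdd r k))) + (c (φ (Fin.natAdd r k)) : ℂ) * ξ) : Fin (r + s) → ℂ) ∘ φ.symm =
      fun k => (c k : ℂ) * ξ + Complex.log (1 + ((x k : ℂ) + (y k : ℂ) * Complex.I) / N) := by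
    have e2 : (Fin.append (fun k => gl N (x (φ (Fin.castAdd s k))) 0 +
      (c (φ (Fin.castAdd s k)) : ℂ) * ξ) (fun k => gl N (x (φ (Fin.natAdd r k)))
      (y (φ (Fin.natAdd r k))) + (c (φ (Fin.natAdd r k)) : ℂ) * ξ) : Fin (r + s) → ℂ) =
      (fun k => (c k : ℂ) * ξ + Complex.log (1 + ((x k : ℂ) + (y k : ℂ) * Complex.I) / N)) ∘
        φ := by
      funext k
      induction k using Fin.addCases with
      | left k =>
        rw [Fin.append_left, Function.comp_apply]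
        have h1 : y (φ (Fin.castAdd s k)) = 0 := hR k
        rw [h1, gl]
        ring
      | right k =>
        rw [Fin.append_right, Function.comp_apply, gl]
        ring
    rw [e2]
    funext k
    simp
  rw [e1] at h9
  exact h9

theorem pf_CCM (hGIM : Pool.Agent.H72.GP.T_GIM) : Pool.Agent.H72.GP.T_CCM :=
  ccm Pool.Agent.H29.BF.pkg Pool.Agent.H84.BF.evp Pool.Agent.H57.BF.clr
    (Pool.Agent.H68.PSV.pf_RKN Pool.Agent.H84.BF.evp) pf_ELM hGIM

end Pool.Agent.H81.CC
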