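import Pool.Agent.H81.CC.Conj

/-!
# CCR: the tuple is good relative to every real or imaginary number
-/

set_option autoImplicit false

open Finset Filter

namespace Pool.Agent.H81.CC

open Pool.Agent.H72.BF

/-- the argument of the logarithm is near `1` -/
theorem small_arg {N : ℕ} (hN : 16 ≤ N) {dl : ℝ} (hdl : dl ≤ 1 / 2) {x y : ℤ}
    (hx : |(x : ℝ)| ≤ (N : ℝ) ^ dl) (hy : |(y : ℝ)| ≤ (N : ℝ) ^ dl) :
    ‖((x : ℂ) + (y : ℂ) * Complex.I) / N‖ ≤ 1 / 2 := by
  have hN' : (16 : ℝ) ≤ N := by exact_mod_cast hN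
  have h1 : (N : ℝ) ^ dl ≤ Real.sqrt N := by
    rw [Real.sqrt_eq_rpow]
    exact Real.rpow_le_rpow_of_exponent_le (by linarith) hdl
  have h2 : ‖(x : ℂ) + (y : ℂ) * Complex.I‖ ≤ 2 * Real.sqrt N := by
    refine (norm_add_le _ _).trans ?_
    rw [norm_mul, Complex.norm_I, mul_one, Complex.norm_intCast, Complex.norm_intCast]
    linarith
  have h3 : Real.sqrt N * Real.sqrt N = N := Real.mul_self_sqrt (by linarith)
  have h4 : (4 : ℝ) ≤ Real.sqrt N := by
    rw [show (4 : ℝ) = Real.sqrt 16 by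
      rw [show (16 : ℝ) = 4 ^ 2 by norm_num, Real.sqrt_sq (by norm_num)]]
    exact Real.sqrt_le_sqrt hN'
  rw [norm_div, Complex.norm_natCast, div_le_iff₀ (by linarith)]
  nlinarith

theorem re_pos_of_small {z : ℂ} (hz : ‖z‖ ≤ 1 / 2) : 0 < (1 + z).re := by
  have h1 := Complex.abs_re_le_norm z
  rw [Complex.add_re, Complex.one_re]
  have h2 := (abs_le.1 (h1.trans hz)).1
  linarith

theorem arg_ne_pi_of_re_pos {z : ℂ} (hz : 0 < z.re) : z.arg ≠ Real.pi := by
  intro h
  rw [Complex.arg_eq_pi_iff] at h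
  linarith [h.1]

theorem conj_gl {N : ℕ} (hN : 16 ≤ N) {dl : ℝ} (hdl : dl ≤ 1 / 2) {x y : ℤ}
    (hx : |(x : ℝ)| ≤ (N : ℝ) ^ dl) (hy : |(y : ℝ)| ≤ (N : ℝ) ^ dl) :
    (starRingEnd ℂ) (gl N x y) =
      Complex.log (1 + ((x : ℂ) - (y : ℂ) * Complex.I) / N) := by
  have h1 := re_pos_of_small (small_arg hN hdl hx hy)
  rw [gl, ← Complex.log_conj _ (arg_ne_pi_of_re_pos h1)]
  congr 1
  rw [map_add, map_div₀, map_add, map_mul]
  simp only [map_one, map_intCast, Complex.conj_I, map_natCast]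
  ring

theorem norm_gl_le {N : ℕ} (hN : 16 ≤ N) {dl : ℝ} (hdl : dl ≤ 1 / 2) {x y : ℤ}
    (hx : |(x : ℝ)| ≤ (N : ℝ) ^ dl) (hy : |(y : ℝ)| ≤ (N : ℝ) ^ dl) :
    ‖gl N x y‖ ≤ 1 := by
  have h1 := small_arg hN hdl hx hy
  have h2 := Complex.norm_log_one_add_half_le_self h1
  rw [gl]
  linarith

theorem sel_eq {m n : ℕ} {e : Fin n → Fin m} (he : Function.Injective e) (i : Fin n)
    (y : Fin n → ℂ) : ∑ k, (((if e i = e k then 1 else 0 : ℤ)) : ℂ) * y k = y i := by
  rw [Finset.sum_eq_single i]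
  · simp
  · intro k _ hk
    rw [if_neg (fun h => hk (he h).symm)]
    simp
  · intro h
    exact absurd (Finset.mem_univ _) h

theorem sel_ne {m n : ℕ} {e : Fin n → Fin m} {j : Fin m} (y : Fin n → ℂ)
    (hj : ∀ k, j ≠ e k) : ∑ k, (((if j = e k then 1 else 0 : ℤ)) : ℂ) * y k = 0 := by
  refine Finset.sum_eq_zero fun k _ => ?_
  rw [if_neg (hj k)]
  simp

theorem sel_zero {n : ℕ} (y : Fin n → ℂ) : ∑ k, ((0 : ℤ) : ℂ) * y k = 0 := by
  simp

/-- from `Fin n ⊕ Fin n` to `Fin (n + n)` -/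
theorem append_comp {n n' : ℕ} {α : Type} (u : Fin n → α) (v : Fin n' → α) :
    Sum.elim u v ∘ finSumFinEquiv.symm = Fin.append u v := by
  funext i
  refine Fin.addCases (fun i => ?_) (fun i => ?_) i
  · simp
  · simp

theorem ccr (hGEN : T_GEN) (hGIC : Pool.Agent.H72.GP.T_GIC) : T_CCR := by
  classical
  intro n d
  obtain ⟨D, hD⟩ := hGEN 1 n n (n + n) d (by omega)
  obtain ⟨dl, N1, CG, hdl0, hCG, hG⟩ := hGIC n D
  refine ⟨min dl (1 / 2), max N1 16, lt_min hdl0 (by norm_num), fun A => ?_⟩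
  obtain ⟨C, hC, hmain⟩ := hD A CG
  refine ⟨C, hC, ?_⟩
  intro N hN H hH hNH ξ hξ hreal x y hNR hSm hbad
  have hN1 : N1 ≤ N := (le_max_left _ _).trans hN
  have hN16 : 16 ≤ N := (le_max_right _ _).trans hN
  have hNr : (16 : ℝ) ≤ N := by exact_mod_cast hN16
  have hd : min dl (1 / 2) ≤ (1 / 2 : ℝ) := min_le_right _ _
  have hH1 : (1 : ℝ) ≤ H := by linarith
  have hconj : (fun k => (starRingEnd ℂ) (gl N (x k) (y k))) = fun k =>
      Complex.log (1 + ((x k : ℂ) - (y k : ℂ) * Complex.I) / N) := by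
    funext k
    exact conj_gl hN16 hd (hSm k).1 (hSm k).2
  have hbad' : badRN (fun _ : Fin 1 => ξ) d A C H
      (fun k => (starRingEnd ℂ) (gl N (x k) (y k))) := by
    have h1 := badRN_conj _ d A C H _ hbad
    obtain ⟨s, hs, hs'⟩ : ∃ s : ℤ, (s = 1 ∨ s = -1) ∧ (starRingEnd ℂ) ξ = (s : ℂ) * ξ := by
      rcases hreal with h | h
      · exact ⟨1, Or.inl rfl, by rw [h]; simp⟩
      · exact ⟨-1, Or.inr rfl, by rw [h]; simp⟩
    refine badRN_sign (fun _ => s) (fun _ => hs) _ d A C H _ ?_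
    rw [← hs']
    exact h1
  refine hmain H hH (fun _ => ξ) (fun k => gl N (x k) (y k))
    (fun k => (starRingEnd ℂ) (gl N (x k) (y k))) (fun _ => hξ)
    (fun k => (norm_gl_le hN16 hd (hSm k).1 (hSm k).2).trans hH1)
    (fun k => by
      rw [Complex.norm_conj]
      exact (norm_gl_le hN16 hd (hSm k).1 (hSm k).2).trans hH1)
    (fun _ _ => 0) (fun i k => if i = Fin.castAdd n k then 1 else 0)
    (fun i k => if i = Fin.natAdd n k then 1 else 0) (fun i k => by simp; linarith)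
    (fun i k => by split_ifs <;> simp <;> linarith)
    (fun i k => by split_ifs <;> simp <;> linarith) ?_ ⟨hbad, hbad'⟩
  intro H' hH' R hR0 hRD hRH
  have e1 : (fun i : Fin (n + n) => comb (fun _ : Fin 1 => (0 : ℤ))
      (fun k => if i = Fin.castAdd n k then 1 else 0)
      (fun k => if i = Fin.natAdd n k then 1 else 0) (fun _ => ξ) (fun k => gl N (x k) (y k))
      (fun k => (starRingEnd ℂ) (gl N (x k) (y k)))) =
      Sum.elim (fun k => gl N (x k) (y k)) (fun k =>
        Complex.log (1 + ((x k : ℂ) - (y k : ℂ) * Complex.I) / N)) ∘ finSumFinEquiv.symm := by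
    rw [append_comp, ← hconj]
    funext i
    refine Fin.addCases (fun i => ?_) (fun i => ?_) i
    · rw [Fin.append_left, comb, sel_zero, sel_eq (Fin.castAdd_injective n n), sel_ne]
      · simp
      · intro k h
        have := congrArg Fin.val h
        simp only [Fin.val_castAdd, Fin.val_natAdd] at this
        omega
    · rw [Fin.append_right, comb, sel_zero, sel_eq (Fin.natAdd_injective n n), sel_ne]
      · simp
      · intro k h
        have := congrArg Fin.val h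
        simp only [Fin.val_castAdd, Fin.val_natAdd] at this
        omega
  rw [e1, ← MvPolynomial.aeval_rename]
  refine hG N hN1 x y hNR.1 hNR.2 (fun k => ?_) H' (hNH.trans hH')
    (MvPolynomial.rename finSumFinEquiv.symm R) ?_ ((MvPolynomial.totalDegree_rename_le _ _).trans
      hRD) ?_
  · have h1 : (N : ℝ) ^ (min dl (1 / 2)) ≤ (N : ℝ) ^ dl :=
      Real.rpow_le_rpow_of_exponent_le (by linarith) (min_le_left _ _)
    exact ⟨(hSm k).1.trans h1, (hSm k).2.trans h1⟩
  · intro h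
    exact hR0 (MvPolynomial.rename_injective _ finSumFinEquiv.symm.injective (by
      rw [h, map_zero]))
  · intro e
    have h5 : e = (e.mapDomain finSumFinEquiv).mapDomain finSumFinEquiv.symm := by
      rw [← Finsupp.mapDomain_comp]
      simp
    rw [h5, MvPolynomial.coeff_rename_mapDomain _ finSumFinEquiv.symm.injective]
    exact hRH _

end Pool.Agent.H81.CC
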