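import Pool.Agent.H81.CC.Defs2

/-!
# Complex conjugation of bad tuples
-/

set_option autoImplicit false

open Finset Filter

namespace Pool.Agent.H81.CC

open Pool.Agent.H72.BF

section tw

variable {σ : Type} [Fintype σ]

/-- change of signs of the variables -/
noncomputable def tw (S : σ → ℤ) (P : MvPolynomial σ ℤ) : MvPolynomial σ ℤ :=
  ∑ m ∈ P.support, MvPolynomial.monomial m ((∏ i, S i ^ m i) * P.coeff m)

theorem coeff_tw (S : σ → ℤ) (P : MvPolynomial σ ℤ) (e : σ →₀ ℕ) :
    (tw S P).coeff e = (∏ i, S i ^ e i) * P.coeff e := by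
  classical
  rw [tw, MvPolynomial.coeff_sum]
  simp only [MvPolynomial.coeff_monomial]
  rw [Finset.sum_ite_eq']
  split_ifs with h
  · rfl
  · rw [MvPolynomial.notMem_support_iff.1 h, mul_zero]

theorem totalDegree_tw (S : σ → ℤ) (P : MvPolynomial σ ℤ) :
    (tw S P).totalDegree ≤ P.totalDegree := by
  refine Finset.sup_mono fun m hm => ?_
  rw [MvPolynomial.mem_support_iff, coeff_tw] at hm
  rw [MvPolynomial.mem_support_iff]
  intro h
  exact hm (by rw [h, mul_zero])

theorem aeval_tw {R : Type*} [CommRing R] [Algebra ℤ R] (S : σ → ℤ) (P : MvPolynomial σ ℤ) (v : σ → R) :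
    MvPolynomial.aeval v (tw S P) = MvPolynomial.aeval (fun i => (S i : R) * v i) P := by
  classical
  rw [tw, map_sum, MvPolynomial.aeval_def, MvPolynomial.eval₂_eq']
  refine Finset.sum_congr rfl fun m _ => ?_
  rw [MvPolynomial.aeval_monomial, Finsupp.prod_fintype _ _ (fun _ => pow_zero _)]
  simp only [mul_pow, Finset.prod_mul_distrib, map_mul, map_prod, map_pow]
  simp only [eq_intCast]
  ring

end tw

/-- change of the signs of the parameters -/
theorem badRN_sign {r n : ℕ} (S : Fin r → ℤ) (hS : ∀ i, S i = 1 ∨ S i = -1) (ξ : Fin r → ℂ)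
    (d : ℕ) (A C H : ℝ) (a : Fin n → ℂ) (h : badRN (fun i => (S i : ℂ) * ξ i) d A C H a) :
    badRN ξ d A C H a := by
  classical
  obtain ⟨P, h1, h2, h3, m, h4⟩ := h
  set T : Fin (r + n) → ℤ := Fin.append S (fun _ => 1) with hT
  have hT1 : ∀ i, T i = 1 ∨ T i = -1 := by
    intro i
    refine Fin.addCases (fun i => ?_) (fun i => ?_) i
    · rw [hT, Fin.append_left]
      exact hS i
    · rw [hT, Fin.append_right]
      exact Or.inl rfl
  have hev : ∀ {R : Type} [CommRing R] [Algebra ℤ R] (u : Fin r → R) (v : Fin n → R),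
      (fun i => (T i : R) * Fin.append u v i) = Fin.append (fun i => (S i : R) * u i) v := by
    intro R _ _ u v
    funext i
    refine Fin.addCases (fun i => ?_) (fun i => ?_) i
    · rw [hT, Fin.append_left, Fin.append_left, Fin.append_left]
    · rw [hT, Fin.append_right, Fin.append_right, Fin.append_right]
      simp
  refine ⟨tw T P, (totalDegree_tw T P).trans h1, ?_, ?_, m, ?_⟩
  · intro e
    rw [coeff_tw, Int.cast_mul, abs_mul]
    have h5 : |((∏ i, T i ^ e i : ℤ) : ℝ)| = 1 := by
      rw [Int.cast_prod, Finset.abs_prod]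
      refine Finset.prod_eq_one fun i _ => ?_
      rw [Int.cast_pow, abs_pow]
      rcases hT1 i with h | h
      · rw [h]; simp
      · rw [h]; simp
    rw [h5, one_mul]
    exact h2 e
  · rw [aeval_tw, hev]
    exact h3
  · rw [aeval_tw, hev]
    have h6 : (fun i => ((S i : ℤ) : MvPolynomial (Fin n) ℂ) * MvPolynomial.C (ξ i)) =
        fun i => MvPolynomial.C ((S i : ℂ) * ξ i) := by
      funext i
      rw [map_mul]
      simp
    rw [h6]
    exact h4

/-- complex conjugation -/
theorem badRN_conj {r n : ℕ} (ξ : Fin r → ℂ) (d : ℕ) (A C H : ℝ) (a : Fin n → ℂ)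
    (h : badRN ξ d A C H a) :
    badRN (fun i => (starRingEnd ℂ) (ξ i)) d A C H (fun i => (starRingEnd ℂ) (a i)) := by
  classical
  obtain ⟨P, h1, h2, h3, m, h4⟩ := h
  have e1 : (Fin.append (fun i => (starRingEnd ℂ) (ξ i)) (fun i => (starRingEnd ℂ) (a i)) :
      Fin (r + n) → ℂ) = fun i => (starRingEnd ℂ) (Fin.append ξ a i) := by
    funext i
    refine Fin.addCases (fun i => ?_) (fun i => ?_) i
    · rw [Fin.append_left, Fin.append_left]
    · rw [Fin.append_right, Fin.append_right]
  have e2 : (Fin.append (fun i => MvPolynomial.C ((starRingEnd ℂ) (ξ i))) MvPolynomial.X :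
      Fin (r + n) → MvPolynomial (Fin n) ℂ) = fun i => MvPolynomial.map (starRingEnd ℂ)
        ((Fin.append (fun i => MvPolynomial.C (ξ i)) MvPolynomial.X :
          Fin (r + n) → MvPolynomial (Fin n) ℂ) i) := by
    funext i
    refine Fin.addCases (fun i => ?_) (fun i => ?_) i
    · rw [Fin.append_left, Fin.append_left, MvPolynomial.map_C]
    · rw [Fin.append_right, Fin.append_right, MvPolynomial.map_X]
  have key : ∀ {R R' : Type} [CommRing R] [CommRing R'] [Algebra ℤ R] [Algebra ℤ R'] (φ : R →+* R') (v : Fin (r + n) → R),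
      MvPolynomial.aeval (fun i => φ (v i)) P = φ (MvPolynomial.aeval v P) := by
    intro R R' _ _ _ _ φ v
    rw [MvPolynomial.aeval_def, MvPolynomial.aeval_def, MvPolynomial.eval₂_eq',
      MvPolynomial.eval₂_eq', map_sum]
    refine Finset.sum_congr rfl fun m _ => ?_
    rw [map_mul, map_prod]
    simp
  refine ⟨P, h1, h2, ?_, m, ?_⟩
  · rw [e1, key]
    rw [Complex.norm_conj]
    exact h3
  · rw [e2, key, MvPolynomial.coeff_map, Complex.norm_conj]
    exact h4

end Pool.Agent.H81.CC
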