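import Pool.Agent.H72.PSV.T2

/-!
# Fixed tuples of logarithms at all heights, by complex conjugation: targets (MP_3cf473_nt)
-/

set_option autoImplicit false

open Finset Filter

namespace Pool.Agent.H81.CC

open Pool.Agent.H72.PSV (RelRN)
open Pool.Agent.H72.BF (badRN)

noncomputable section

/-- ELC: if `y` and `y'` are dependent relative to `t` in degree at most `d`, then `r + n + n' - 1`
elements of the span of `t, y, y'` satisfy a relation of bounded degree -/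
def T_ELC : Prop := ∀ r n n' m d : ℕ, m + 1 = r + n + n' → ∃ D : ℕ,
  ∀ (K F : Type) [Field K] [Field F] [Algebra K F]
  (t : Fin r → F) (y : Fin n → F) (y' : Fin n' → F), RelRN K t d y → RelRN K t d y' →
  ∀ u : Fin m → F, (∀ W : Submodule K F, (∀ i, t i ∈ W) → (∀ i, y i ∈ W) → (∀ i, y' i ∈ W) →
    ∀ i, u i ∈ W) →
  ∃ Q : MvPolynomial (Fin m) K, Q ≠ 0 ∧ Q.totalDegree ≤ D ∧ MvPolynomial.aeval u Q = 0

/-- an integer combination of `ξ, y, y'` -/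
def comb {r n n' : ℕ} (U : Fin r → ℤ) (V : Fin n → ℤ) (V' : Fin n' → ℤ) (ξ : Fin r → ℂ)
    (y : Fin n → ℂ) (y' : Fin n' → ℂ) : ℂ :=
  ∑ k, (U k : ℂ) * ξ k + ∑ k, (V k : ℂ) * y k + ∑ k, (V' k : ℂ) * y' k

/-- GEN: two tuples which are bad relative to `ξ` make `r + n + n' - 1` combinations of `ξ, y, y'`
bad in bounded degree -/
def T_GEN : Prop := ∀ r n n' m d : ℕ, m + 1 = r + n + n' → ∃ D : ℕ, ∀ (A CG : ℝ),
  ∃ C : ℝ, 0 < C ∧ ∀ H : ℝ, 2 ≤ H → ∀ (ξ : Fin r → ℂ) (y : Fin n → ℂ) (y' : Fin n' → ℂ),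
  (∀ i, ‖ξ i‖ ≤ H) → (∀ i, ‖y i‖ ≤ H) → (∀ i, ‖y' i‖ ≤ H) →
  ∀ (U : Fin m → Fin r → ℤ) (V : Fin m → Fin n → ℤ) (V' : Fin m → Fin n' → ℤ),
  (∀ i k, |((U i k : ℤ) : ℝ)| ≤ H) → (∀ i k, |((V i k : ℤ) : ℝ)| ≤ H) →
  (∀ i k, |((V' i k : ℤ) : ℝ)| ≤ H) →
  (∀ H' : ℝ, H ≤ H' → ∀ R : MvPolynomial (Fin m) ℤ, R ≠ 0 → R.totalDegree ≤ D →
    (∀ e : Fin m →₀ ℕ, |((R.coeff e : ℤ) : ℝ)| ≤ H') →
    1 ≤ H' ^ CG * ‖MvPolynomial.aeval (fun i => comb (U i) (V i) (V' i) ξ y y') R‖) →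
  ¬ (badRN ξ d A C H y ∧ badRN ξ d A C H y')

end

end Pool.Agent.H81.CC
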