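import Pool.Agent.H81.CC.ELC
import Pool.Agent.H81.CC.Sub

/-!
# ELB: elimination for other branches
-/

set_option autoImplicit false

open Finset Filter MvPolynomial

namespace Pool.Agent.H81.CC

open Pool.Agent.H72.PSV

section

variable {K F : Type} [Field K] [Field F] [Algebra K F]

/-- linear change of the variables of a relation -/
theorem relRN_lin {r n : ℕ} (t : Fin r → F) (d : ℕ) (y z : Fin n → F)
    (S T : Fin n → MvPolynomial (Fin n) K) (hS : ∀ k, (S k).totalDegree ≤ 1)
    (hTS : ∀ k, aeval T (S k) = X k) (hz : ∀ k, aeval z (S k) = y k) (h : RelRN K t d y) :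
    RelRN K t d z := by
  classical
  obtain ⟨Q, h1, h2, h3⟩ := h
  set V : Fin (r + n) → MvPolynomial (Fin (r + n)) K :=
    Fin.append (fun i => X (Fin.castAdd n i)) (fun k => rename (Fin.natAdd r) (S k)) with hV
  refine ⟨aeval V Q, ?_, ?_, ?_⟩
  · refine (totalDegree_aeval_le V (fun i => ?_) Q).trans h1
    refine Fin.addCases (fun i => ?_) (fun i => ?_) i
    · rw [hV, Fin.append_left, totalDegree_X]
    · rw [hV, Fin.append_right]
      exact (totalDegree_rename_le _ _).trans (hS i)
  · rw [← AlgHom.comp_apply, comp_aeval]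
    have e : (fun i => aeval (Fin.append t z) (V i)) = Fin.append t y := by
      funext i
      refine Fin.addCases (fun i => ?_) (fun i => ?_) i
      · rw [hV, Fin.append_left, aeval_X, Fin.append_left, Fin.append_left]
      · rw [hV, Fin.append_right, Fin.append_right, aeval_rename]
        have e1 : Fin.append t z ∘ Fin.natAdd r = z := by
          funext i
          rw [Function.comp_apply, Fin.append_right]
        rw [e1, hz]
    rw [e]
    exact h2
  · intro h0
    apply h3
    set TF : Fin n → MvPolynomial (Fin n) F := fun k => aeval X (T k) with hTF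
    have hTF' : ∀ p : MvPolynomial (Fin n) K,
        aeval TF (aeval (X : Fin n → MvPolynomial (Fin n) F) p) =
          aeval (X : Fin n → MvPolynomial (Fin n) F) (aeval T p) := by
      intro p
      induction p using MvPolynomial.induction_on with
      | C a =>
        rw [aeval_C, aeval_C, algebraMap_eq, aeval_C]
        exact (aeval TF).commutes (algebraMap K F a)
      | add p q hp hq => simp only [map_add, hp, hq]
      | mul_X p i hp => rw [map_mul, map_mul, map_mul, map_mul, hp, aeval_X, aeval_X, aeval_X, hTF]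
    have h5 := congrArg (aeval TF) h0
    rw [map_zero, ← AlgHom.comp_apply, comp_aeval] at h5
    rw [← h5]
    have key : ∀ (v : Fin (r + n) → MvPolynomial (Fin n) F) (q : MvPolynomial (Fin (r + n)) K),
        aeval TF (aeval v q) = aeval (fun i => aeval TF (v i)) q := by
      intro v q
      induction q using MvPolynomial.induction_on with
      | C a =>
        rw [aeval_C, aeval_C]
        exact (aeval TF).commutes (algebraMap K F a)
      | add p q hp hq => simp only [map_add, hp, hq]
      | mul_X p i hp => rw [map_mul, map_mul, map_mul, hp, aeval_X, aeval_X]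
    rw [key]
    congr 2
    funext i
    refine Fin.addCases (fun i => ?_) (fun i => ?_) i
    · rw [hV, Fin.append_left, Fin.append_left, aeval_X, Fin.append_left, aeval_C]
      rfl
    · rw [hV, Fin.append_right, Fin.append_right, aeval_rename]
      have e1 : (Fin.append (fun i => C (t i)) X : Fin (r + n) → MvPolynomial (Fin n) F) ∘
          Fin.natAdd r = X := by
        funext i
        rw [Function.comp_apply, Fin.append_right]
      rw [e1, hTF', hTS, aeval_X]

end

/-- ELB: if `g + c x` and `g - c x` are dependent, `g` is dependent -/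
def T_ELB : Prop := ∀ n d : ℕ, ∃ D : ℕ,
  ∀ (K F : Type) [Field K] [CharZero K] [Field F] [Algebra K F]
  (t : Fin 0 → F) (g : Fin n → F) (c : Fin n → K) (x : F),
  RelRN K t d (fun k => g k + algebraMap K F (c k) * x) →
  RelRN K t d (fun k => g k - algebraMap K F (c k) * x) →
  ∃ Q : MvPolynomial (Fin n) K, Q ≠ 0 ∧ Q.totalDegree ≤ D ∧ aeval g Q = 0

theorem elb (hFBS : T_FBS) (hFST : T_FST) (hFCT : T_FCT) (hRPO : T_RPO) : T_ELB := by
  classical
  intro n d
  choose fst hfst using hFST
  choose fct hfct using hFCT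
  rcases n with - | m
  · refine ⟨0, ?_⟩
    intro K F _ _ _ _ t g c x h h'
    obtain ⟨p, -⟩ := hRPO 0 0 d K F t _ h
    exact p.elim0
  refine ⟨max d (max (fct (m - 1) (fst (m - 1) 1 d)) (fct m (fst m (fst m 1 d) d))), ?_⟩
  intro K F _ _ _ _ t g c x h h'
  by_cases hc : ∀ k, c k = 0
  · have e : (fun k => g k + algebraMap K F (c k) * x) = g := by
      funext k
      rw [hc k, map_zero, zero_mul, add_zero]
    rw [e] at h
    obtain ⟨Q, h1, h2, h3⟩ := h
    refine ⟨rename (Fin.cast (Nat.zero_add _)) Q, ?_,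
      ((totalDegree_rename_le _ _).trans h1).trans (le_max_left _ _), ?_⟩
    · intro h0
      apply h3
      have : Q = 0 := rename_injective _ (Fin.cast_injective _) (by rw [h0, map_zero])
      rw [this, map_zero]
    · rw [aeval_rename]
      have e1 : g ∘ Fin.cast (Nat.zero_add (m + 1)) = Fin.append t g := by
        funext i
        refine Fin.addCases (fun i => i.elim0) (fun i => ?_) i
        rw [Fin.append_right, Function.comp_apply]
        congr 1
        ext
        simp
      rw [e1]
      exact h2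
  push Not at hc
  obtain ⟨p, hp⟩ := hc
  set dd : Fin m → K := fun i => c (p.succAbove i) / c p with hdd
  set μ : Fin m → F := fun i => g (p.succAbove i) - algebraMap K F (dd i) * g p with hμ
  set S : Fin (m + 1) → MvPolynomial (Fin (m + 1)) K :=
    Fin.insertNth p (X (Fin.last m)) (fun i => X i.castSucc + C (dd i) * X (Fin.last m)) with hS
  set T : Fin (m + 1) → MvPolynomial (Fin (m + 1)) K :=
    Fin.snoc (fun i => X (p.succAbove i) - C (dd i) * X p) (X p) with hT
  have hCX : ∀ (a : K) (i : Fin (m + 1)), (C a * X i : MvPolynomial (Fin (m + 1)) K).totalDegree ≤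
      1 := by
    intro a i
    refine (totalDegree_mul _ _).trans ?_
    rw [totalDegree_C, totalDegree_X]
  have hS1 : ∀ k, (S k).totalDegree ≤ 1 := by
    rw [Fin.forall_iff_succAbove p]
    refine ⟨?_, fun i => ?_⟩
    · rw [hS, Fin.insertNth_apply_same, totalDegree_X]
    · rw [hS, Fin.insertNth_apply_succAbove]
      refine (totalDegree_add _ _).trans (max_le ?_ (hCX _ _))
      rw [totalDegree_X]
  have hTS : ∀ k, aeval T (S k) = X k := by
    rw [Fin.forall_iff_succAbove p]
    refine ⟨?_, fun i => ?_⟩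
    · rw [hS, Fin.insertNth_apply_same, aeval_X, hT, Fin.snoc_last]
    · rw [hS, Fin.insertNth_apply_succAbove, map_add, map_mul, aeval_X, aeval_X, aeval_C, hT,
        Fin.snoc_last, Fin.snoc_castSucc, algebraMap_eq]
      ring
  -- the two tuples in the new coordinates
  have hz : ∀ (s : F) , ∀ k, aeval (Fin.snoc μ (g p + algebraMap K F (c p) * s) :
      Fin (m + 1) → F) (S k) = g k + algebraMap K F (c k) * s := by
    intro s
    have hcp : algebraMap K F (c p) ≠ 0 := by
      rw [map_ne_zero]
      exact hp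
    rw [Fin.forall_iff_succAbove p]
    refine ⟨?_, fun i => ?_⟩
    · rw [hS, Fin.insertNth_apply_same, aeval_X, Fin.snoc_last]
    · rw [hS, Fin.insertNth_apply_succAbove, map_add, map_mul, aeval_X, aeval_X, aeval_C,
        Fin.snoc_last, Fin.snoc_castSucc, hμ, hdd]
      simp only [map_div₀]
      field_simp
      ring
  have hr : ∀ s : F, RelRN K t d (fun k => g k + algebraMap K F (c k) * s) →
      RelRN K t d (Fin.snoc μ (g p + algebraMap K F (c p) * s) : Fin (m + 1) → F) := fun s hs =>
    relRN_lin t d _ _ S T hS1 hTS (hz s) hs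
  have hneg : (fun k => g k - algebraMap K F (c k) * x) =
      fun k => g k + algebraMap K F (c k) * (-x) := by
    funext k
    ring
  rw [hneg] at h'
  have key : ∀ w : F, RelRN K t d (Fin.snoc μ w : Fin (m + 1) → F) →
      (∃ Q : MvPolynomial (Fin (m + 1)) K, Q ≠ 0 ∧
        Q.totalDegree ≤ fct (m - 1) (fst (m - 1) 1 d) ∧ aeval g Q = 0) ∨
      ∀ (ρ c : ℕ) (Φ : Filt K F ρ c), (∀ q, μ q ∈ Φ.G 1) →
        ∃ a : Fin (d + 1) → F, (∀ l, a l ∈ Φ.G (d + 1)) ∧ (∃ l, a l ≠ 0) ∧
          ∑ l, a l * w ^ (l : ℕ) = 0 := by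
    intro w hw
    obtain ⟨p0, hp0⟩ := hRPO 0 (m + 1) d K F t _ hw
    rcases Fin.eq_castSucc_or_eq_last p0 with ⟨i0, rfl⟩ | rfl
    · left
      obtain ⟨m', rfl⟩ : ∃ m', m = m' + 1 := ⟨m - 1, by have := i0.2; omega⟩
      obtain ⟨Φ, hΦ⟩ := hFBS m' K F (fun i => μ (i0.succAbove i))
      have hμΦ : ∀ q, q ≠ i0 → μ q ∈ Φ.G 1 := by
        intro q hq
        obtain ⟨i, rfl⟩ := Fin.exists_succAbove_eq hq
        exact hΦ i
      obtain ⟨a, ha1, ha2, ha3⟩ := hp0 m' _ Φ (fun i => i.elim0) (fun q hq => by
        obtain ⟨q', rfl⟩ : ∃ q' : Fin (m' + 1), q = q'.castSucc := by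
          rcases Fin.eq_castSucc_or_eq_last q with ⟨j, rfl⟩ | rfl
          · exact ⟨j, rfl⟩
          · exact absurd hq (not_lt.2 (Fin.le_last _))
        rw [Fin.snoc_castSucc]
        exact hμΦ q' (fun h => by rw [h] at hq; exact lt_irrefl _ hq))
      rw [Fin.snoc_castSucc] at ha3
      obtain ⟨Φ', h1, h2⟩ := hfst m' 1 d K F Φ (μ i0) a ha1 ha2 ha3
      obtain ⟨R, hR0, hRD, hR⟩ := hfct m' _ K F Φ' μ (fun q => by
        by_cases hq : q = i0
        · rw [hq]
          exact h2
        · exact h1 1 le_rfl (hμΦ q hq))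
      refine ⟨aeval (fun i => X (p.succAbove i) - C (dd i) * X p) R, ?_, ?_, ?_⟩
      · intro h0
        apply hR0
        have h5 := congrArg (aeval (Fin.insertNth p (0 : MvPolynomial (Fin (m' + 1)) K) X :
          Fin (m' + 1 + 1) → MvPolynomial (Fin (m' + 1)) K)) h0
        rw [map_zero, ← AlgHom.comp_apply, comp_aeval] at h5
        rw [← h5]
        have e : (fun i => aeval (Fin.insertNth p (0 : MvPolynomial (Fin (m' + 1)) K) X :
          Fin (m' + 1 + 1) → MvPolynomial (Fin (m' + 1)) K)
            (X (p.succAbove i) - C (dd i) * X p : MvPolynomial (Fin (m' + 1 + 1)) K)) = X := by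
          funext i
          rw [map_sub, map_mul, aeval_X, aeval_X, Fin.insertNth_apply_same,
            Fin.insertNth_apply_succAbove, mul_zero, sub_zero]
        rw [e]
        exact (aeval_X_left_apply R).symm
      · refine (totalDegree_aeval_le _ (fun i => ?_) R).trans hRD
        refine (totalDegree_sub _ _).trans (max_le ?_ (hCX _ _))
        rw [totalDegree_X]
      · rw [← AlgHom.comp_apply, comp_aeval]
        have e : (fun i => aeval g (X (p.succAbove i) - C (dd i) * X p :
            MvPolynomial (Fin (m' + 1 + 1)) K)) = μ := by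
          funext i
          rw [map_sub, map_mul, aeval_X, aeval_X, aeval_C, hμ]
        rw [e]
        exact hR
    · right
      intro ρ c' Φ hΦ
      obtain ⟨a, ha1, ha2, ha3⟩ := hp0 ρ c' Φ (fun i => i.elim0) (fun q hq => by
        obtain ⟨q', rfl⟩ : ∃ q' : Fin m, q = q'.castSucc := by
          rcases Fin.eq_castSucc_or_eq_last q with ⟨j, rfl⟩ | rfl
          · exact ⟨j, rfl⟩
          · exact absurd hq (lt_irrefl _)
        rw [Fin.snoc_castSucc]
        exact hΦ q')
      rw [Fin.snoc_last] at ha3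
      exact ⟨a, ha1, ha2, ha3⟩
  rcases key _ (hr x h) with ⟨Q, hQ0, hQD, hQ⟩ | k1
  · exact ⟨Q, hQ0, hQD.trans ((le_max_left _ _).trans (le_max_right _ _)), hQ⟩
  rcases key _ (hr (-x) h') with ⟨Q, hQ0, hQD, hQ⟩ | k2
  · exact ⟨Q, hQ0, hQD.trans ((le_max_left _ _).trans (le_max_right _ _)), hQ⟩
  obtain ⟨Φ, hΦ⟩ := hFBS m K F μ
  obtain ⟨a, ha1, ha2, ha3⟩ := k1 m _ Φ hΦ
  obtain ⟨Φ1, h1, hy1⟩ := hfst m 1 d K F Φ _ a ha1 ha2 ha3
  obtain ⟨a', ha1', ha2', ha3'⟩ := k2 m _ Φ1 (fun q => h1 1 le_rfl (hΦ q))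
  obtain ⟨Φ2, h2, hy2⟩ := hfst m _ d K F Φ1 _ a' ha1' ha2' ha3'
  have hg : g p ∈ Φ2.G 1 := by
    have h3 := (Φ2.G 1).smul_mem (2⁻¹ : K) ((Φ2.G 1).add_mem (h2 1 le_rfl hy1) hy2)
    have e : (2⁻¹ : K) • (g p + algebraMap K F (c p) * x + (g p + algebraMap K F (c p) * -x)) =
        g p := by
      have h4 : (algebraMap K F 2) ≠ 0 := by
        rw [map_ne_zero]
        exact two_ne_zero
      rw [Algebra.smul_def, map_inv₀]
      have h5 : g p + algebraMap K F (c p) * x + (g p + algebraMap K F (c p) * -x) =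
          algebraMap K F 2 * g p := by
        rw [map_ofNat]
        ring
      rw [h5, ← mul_assoc, inv_mul_cancel₀ h4, one_mul]
    rwa [e] at h3
  obtain ⟨Q, hQ0, hQD, hQ⟩ := hfct m _ K F Φ2 g (by
    rw [Fin.forall_iff_succAbove p]
    refine ⟨hg, fun i => ?_⟩
    have e : g (p.succAbove i) = μ i + dd i • g p := by
      rw [hμ, Algebra.smul_def]
      ring
    rw [e]
    exact (Φ2.G 1).add_mem (h2 1 le_rfl (h1 1 le_rfl (hΦ i))) ((Φ2.G 1).smul_mem _ hg))
  exact ⟨Q, hQ0, hQD.trans ((le_max_right _ _).trans (le_max_right _ _)), hQ⟩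

theorem pf_ELB : T_ELB :=
  elb Pool.Agent.H68.PSV.pf_FBS Pool.Agent.H68.PSV.pf_FST Pool.Agent.H34.PSV.pf_FCT
    Pool.Agent.H48.PSV.pf_RPO

end Pool.Agent.H81.CC
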