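import Pool.Agent.H81.CC.Defs
import Pool.Agent.H48.PSV.RPO
import Pool.Agent.H34.PSV.FCT
import Pool.Agent.H68.PSV.FST
import Pool.Agent.H68.PSV.FBS

/-!
# ELC: elimination with bounded degrees
-/

set_option autoImplicit false

open Finset Filter

namespace Pool.Agent.H81.CC

open Pool.Agent.H72.PSV

theorem elc (hFBS : T_FBS) (hFST : T_FST) (hFCT : T_FCT) (hRPO : T_RPO) : T_ELC := by
  classical
  intro r n n' m d hm
  choose fst hfst using hFST
  choose fct hfct using hFCT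
  rcases n with - | n
  · refine ⟨0, ?_⟩
    intro K F _ _ _ t y y' h h'
    obtain ⟨p, -⟩ := hRPO r 0 d K F t y h
    exact p.elim0
  rcases n' with - | n'
  · refine ⟨0, ?_⟩
    intro K F _ _ _ t y y' h h'
    obtain ⟨p, -⟩ := hRPO r 0 d K F t y' h'
    exact p.elim0
  obtain rfl : m = (r + n + n') + 1 := by omega
  refine ⟨fct (r + n + n') (fst (r + n + n') (fst (r + n + n') 1 d) d), ?_⟩
  intro K F _ _ _ t y y' h h' u hu
  obtain ⟨p, hp⟩ := hRPO r (n + 1) d K F t y h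
  obtain ⟨p', hp'⟩ := hRPO r (n' + 1) d K F t y' h'
  obtain ⟨Φ, hΦ⟩ := hFBS (r + n + n') K F
    (Fin.append (Fin.append t (fun i => y (p.succAbove i))) (fun i => y' (p'.succAbove i)))
  have ht : ∀ i, t i ∈ Φ.G 1 := by
    intro i
    have := hΦ (Fin.castAdd n' (Fin.castAdd n i))
    rwa [Fin.append_left, Fin.append_left] at this
  have hy : ∀ q, q ≠ p → y q ∈ Φ.G 1 := by
    intro q hq
    obtain ⟨i, rfl⟩ := Fin.exists_succAbove_eq hq
    have := hΦ (Fin.castAdd n' (Fin.natAdd r i))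
    rwa [Fin.append_left, Fin.append_right] at this
  have hy' : ∀ q, q ≠ p' → y' q ∈ Φ.G 1 := by
    intro q hq
    obtain ⟨i, rfl⟩ := Fin.exists_succAbove_eq hq
    have := hΦ (Fin.natAdd (r + n) i)
    rwa [Fin.append_right] at this
  obtain ⟨a, ha1, ha2, ha3⟩ := hp (r + n + n') _ Φ ht (fun q hq => hy q hq.ne)
  obtain ⟨Φ1, h1, hy1⟩ := hfst (r + n + n') 1 d K F Φ (y p) a ha1 ha2 ha3
  obtain ⟨a', ha1', ha2', ha3'⟩ := hp' (r + n + n') _ Φ1 (fun i => h1 1 le_rfl (ht i))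
    (fun q hq => h1 1 le_rfl (hy' q hq.ne))
  obtain ⟨Φ2, h2, hy2⟩ := hfst (r + n + n') _ d K F Φ1 (y' p') a' ha1' ha2' ha3'
  refine hfct (r + n + n') _ K F Φ2 u ?_
  refine hu (Φ2.G 1) (fun i => h2 1 le_rfl (h1 1 le_rfl (ht i))) (fun i => ?_) (fun i => ?_)
  · by_cases hi : i = p
    · rw [hi]
      exact h2 1 le_rfl hy1
    · exact h2 1 le_rfl (h1 1 le_rfl (hy i hi))
  · by_cases hi : i = p'
    · rw [hi]
      exact hy2
    · exact h2 1 le_rfl (h1 1 le_rfl (hy' i hi))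

theorem pf_ELC : T_ELC :=
  elc Pool.Agent.H68.PSV.pf_FBS Pool.Agent.H68.PSV.pf_FST Pool.Agent.H34.PSV.pf_FCT
    Pool.Agent.H48.PSV.pf_RPO

end Pool.Agent.H81.CC
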