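import Pool.Agent.H81.CC.ELB

/-!
# ELM: elimination for real and for not real numbers together
-/

set_option autoImplicit false

open Finset Filter MvPolynomial

namespace Pool.Agent.H81.CC

open Pool.Agent.H72.PSV

section

variable {K F : Type} [Field K] [Field F] [Algebra K F]

/-- linear change of the variables of a relation, tuples of different lengths -/
theorem relRN_lin2 {r n n' : ℕ} (t : Fin r → F) (d : ℕ) (y : Fin n → F) (z : Fin n' → F)
    (S : Fin n → MvPolynomial (Fin n') K) (T : Fin n' → MvPolynomial (Fin n) K)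
    (hS : ∀ k, (S k).totalDegree ≤ 1)
    (hTS : ∀ k, aeval T (S k) = X k) (hz : ∀ k, aeval z (S k) = y k) (h : RelRN K t d y) :
    RelRN K t d z := by
  classical
  obtain ⟨Q, h1, h2, h3⟩ := h
  set V : Fin (r + n) → MvPolynomial (Fin (r + n')) K :=
    Fin.append (fun i => X (Fin.castAdd n' i)) (fun k => rename (Fin.natAdd r) (S k)) with hV
  refine ⟨aeval V Q, ?_, ?_, ?_⟩
  · refine (totalDegree_aeval_le V (fun i => ?_) Q).trans h1
    refine Fin.addCases (fun i => ?_) (fun i => ?_) i
    · rw [hV, Fin.append_left, totalDegree_X]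
    · rw [hV, Fin.append_right]
      exact (totalDegree_rename_le _ _).trans (hS i)
  · rw [← AlgHom.comp_apply, comp_aeval]
    have e : (fun i => aeval (Fin.append t z) (V i)) = Fin.append t y := by
      funext i
      refine Fin.addCases (fun i => ?_) (fun i => ?_) i
      · rw [hV, Fin.append_left, aeval_X, Fin.append_left, Fin.append_left]
      · rw [hV, Fin.append_right, Fin.append_right, aeval_rename]
        have e1 : Fin.append t z ∘ Fin.natAdd r = z := by
          funext i
          rw [Function.comp_apply, Fin.append_right]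
        rw [e1, hz]
    rw [e]
    exact h2
  · intro h0
    apply h3
    set TF : Fin n' → MvPolynomial (Fin n) F := fun k => aeval X (T k) with hTF
    have hTF' : ∀ p : MvPolynomial (Fin n') K,
        aeval TF (aeval (X : Fin n' → MvPolynomial (Fin n') F) p) =
          aeval (X : Fin n → MvPolynomial (Fin n) F) (aeval T p) := by
      intro p
      induction p using MvPolynomial.induction_on with
      | C a =>
        rw [aeval_C, aeval_C, algebraMap_eq, aeval_C]
        exact (aeval TF).commutes (algebraMap K F a)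
      | add p q hp hq => simp only [map_add, hp, hq]
      | mul_X p i hp => rw [map_mul, map_mul, map_mul, map_mul, hp, aeval_X, aeval_X, aeval_X, hTF]
    have h5 := congrArg (aeval TF) h0
    rw [map_zero, ← AlgHom.comp_apply, comp_aeval] at h5
    rw [← h5]
    have key : ∀ (v : Fin (r + n) → MvPolynomial (Fin n') F) (q : MvPolynomial (Fin (r + n)) K),
        aeval TF (aeval v q) = aeval (fun i => aeval TF (v i)) q := by
      intro v q
      induction q using MvPolynomial.induction_on with
      | C a =>
        rw [aeval_C, aeval_C]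
        exact (aeval TF).commutes (algebraMap K F a)
      | add p q hp hq => simp only [map_add, hp, hq]
      | mul_X p i hp => rw [map_mul, map_mul, map_mul, hp, aeval_X, aeval_X]
    rw [key]
    congr 2
    funext i
    refine Fin.addCases (fun i => ?_) (fun i => ?_) i
    · rw [hV, Fin.append_left, Fin.append_left, aeval_X, Fin.append_left, aeval_C]
      rfl
    · rw [hV, Fin.append_right, Fin.append_right, aeval_rename]
      have e1 : (Fin.append (fun i => C (t i)) X : Fin (r + n') → MvPolynomial (Fin n') F) ∘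
          Fin.natAdd r = X := by
        funext i
        rw [Function.comp_apply, Fin.append_right]
      rw [e1, hTF', hTS, aeval_X]

/-- a relation of a tuple `(u, y)` gives a relation of `u`, or an entry of `y` which is algebraic
over `u` and the previous ones -/
theorem alt (fst : ℕ → ℕ → ℕ → ℕ) (fct : ℕ → ℕ → ℕ) (hFBS : T_FBS)
    (hfst : ∀ (ρ c d : ℕ) (K F : Type) [Field K] [Field F] [Algebra K F]
      (Φ : Filt K F ρ c) (y : F) (a : Fin (d + 1) → F), (∀ l, a l ∈ Φ.G (d + 1)) →
      (∃ l, a l ≠ 0) → ∑ l, a l * y ^ (l : ℕ) = 0 →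
      ∃ Φ' : Filt K F ρ (fst ρ c d), (∀ n, 1 ≤ n → Φ.G n ≤ Φ'.G n) ∧ y ∈ Φ'.G 1)
    (hfct : ∀ (ρ c : ℕ) (K F : Type) [Field K] [Field F] [Algebra K F]
      (Φ : Filt K F ρ c) (u : Fin (ρ + 1) → F), (∀ i, u i ∈ Φ.G 1) →
      ∃ Q : MvPolynomial (Fin (ρ + 1)) K, Q ≠ 0 ∧ Q.totalDegree ≤ fct ρ c ∧ aeval u Q = 0)
    (hRPO : T_RPO) {a n d : ℕ} (t0 : Fin 0 → F) (u : Fin a → F) (y : Fin n → F)
    (h : RelRN K t0 d (Fin.append u y : Fin (a + n) → F)) :
    (∃ Q : MvPolynomial (Fin a) K, Q ≠ 0 ∧ Q.totalDegree ≤ fct (a - 1) (fst (a - 1) 1 d) ∧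
      aeval u Q = 0) ∨
    ∃ p : Fin n, ∀ (ρ c : ℕ) (Φ : Filt K F ρ c), (∀ i, u i ∈ Φ.G 1) →
      (∀ q, q < p → y q ∈ Φ.G 1) →
      ∃ b : Fin (d + 1) → F, (∀ l, b l ∈ Φ.G (d + 1)) ∧ (∃ l, b l ≠ 0) ∧
        ∑ l, b l * y p ^ (l : ℕ) = 0 := by
  classical
  obtain ⟨p0, hp0⟩ := hRPO 0 (a + n) d K F t0 _ h
  induction p0 using Fin.addCases with
  | left i0 =>
    left
    obtain ⟨a', rfl⟩ : ∃ a', a = a' + 1 := ⟨a - 1, by have := i0.2; omega⟩
    obtain ⟨Φ, hΦ⟩ := hFBS a' K F (fun i => u (i0.succAbove i))
    have hμΦ : ∀ q, q ≠ i0 → u q ∈ Φ.G 1 := by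
      intro q hq
      obtain ⟨i, rfl⟩ := Fin.exists_succAbove_eq hq
      exact hΦ i
    obtain ⟨b, ha1, ha2, ha3⟩ := hp0 a' _ Φ (fun i => i.elim0) (fun q hq => by
      induction q using Fin.addCases with
      | left q' =>
        rw [Fin.append_left]
        refine hμΦ q' (fun h => ?_)
        rw [h] at hq
        exact lt_irrefl _ hq
      | right q' =>
        exfalso
        rw [Fin.lt_def] at hq
        simp only [Fin.val_natAdd, Fin.val_castAdd] at hq
        have := i0.2
        omega)
    rw [Fin.append_left] at ha3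
    obtain ⟨Φ', h1, h2⟩ := hfst a' 1 d K F Φ (u i0) b ha1 ha2 ha3
    exact hfct a' _ K F Φ' u (fun q => by
      by_cases hq : q = i0
      · rw [hq]
        exact h2
      · exact h1 1 le_rfl (hμΦ q hq))
  | right p =>
    right
    refine ⟨p, ?_⟩
    intro ρ c Φ hu hy
    obtain ⟨b, ha1, ha2, ha3⟩ := hp0 ρ c Φ (fun i => i.elim0) (fun q hq => by
      induction q using Fin.addCases with
      | left q' =>
        rw [Fin.append_left]
        exact hu q'
      | right q' =>
        rw [Fin.append_right]
        refine hy q' ?_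
        rw [Fin.lt_def] at hq ⊢
        simp only [Fin.val_natAdd] at hq
        omega)
    rw [Fin.append_right] at ha3
    exact ⟨b, ha1, ha2, ha3⟩

end

/-- ELD: elimination with common elements `u` and additional elements `t` -/
def T_ELD : Prop := ∀ r a n n' m d : ℕ, m + 1 = r + a + n + n' → ∃ D : ℕ,
  ∀ (K F : Type) [Field K] [Field F] [Algebra K F] (t0 : Fin 0 → F) (t : Fin r → F)
  (u : Fin a → F) (y : Fin n → F) (y' : Fin n' → F),
  RelRN K t0 d (Fin.append u y : Fin (a + n) → F) →
  RelRN K t0 d (Fin.append u y' : Fin (a + n') → F) →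
  (∃ Q : MvPolynomial (Fin a) K, Q ≠ 0 ∧ Q.totalDegree ≤ D ∧ aeval u Q = 0) ∨
  ∀ w : Fin m → F, (∀ W : Submodule K F, (∀ i, t i ∈ W) → (∀ i, u i ∈ W) → (∀ i, y i ∈ W) →
    (∀ i, y' i ∈ W) → ∀ i, w i ∈ W) →
  ∃ Q : MvPolynomial (Fin m) K, Q ≠ 0 ∧ Q.totalDegree ≤ D ∧ aeval w Q = 0

theorem eld (hFBS : T_FBS) (hFST : T_FST) (hFCT : T_FCT) (hRPO : T_RPO) : T_ELD := by
  classical
  intro r a n n' m d hm
  choose fst hfst using hFST
  choose fct hfct using hFCT
  rcases n with - | n
  · refine ⟨fct (a - 1) (fst (a - 1) 1 d), ?_⟩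
    intro K F _ _ _ t0 t u y y' h h'
    rcases alt fst fct hFBS hfst hfct hRPO t0 u y h with h1 | ⟨p, -⟩
    · exact Or.inl h1
    · exact p.elim0
  rcases n' with - | n'
  · refine ⟨fct (a - 1) (fst (a - 1) 1 d), ?_⟩
    intro K F _ _ _ t0 t u y y' h h'
    rcases alt fst fct hFBS hfst hfct hRPO t0 u y' h' with h1 | ⟨p, -⟩
    · exact Or.inl h1
    · exact p.elim0
  obtain rfl : m = (r + a + n + n') + 1 := by omega
  refine ⟨max (fct (a - 1) (fst (a - 1) 1 d)) (fct (r + a + n + n')
    (fst (r + a + n + n') (fst (r + a + n + n') 1 d) d)), ?_⟩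
  intro K F _ _ _ t0 t u y y' h h'
  rcases alt fst fct hFBS hfst hfct hRPO t0 u y h with ⟨Q, hQ0, hQD, hQ⟩ | ⟨p, hp⟩
  · exact Or.inl ⟨Q, hQ0, hQD.trans (le_max_left _ _), hQ⟩
  rcases alt fst fct hFBS hfst hfct hRPO t0 u y' h' with ⟨Q, hQ0, hQD, hQ⟩ | ⟨p', hp'⟩
  · exact Or.inl ⟨Q, hQ0, hQD.trans (le_max_left _ _), hQ⟩
  refine Or.inr fun w hw => ?_
  obtain ⟨Φ, hΦ⟩ := hFBS (r + a + n + n') K F
    (Fin.append (Fin.append (Fin.append t u) (fun i => y (p.succAbove i)))
      (fun i => y' (p'.succAbove i)))
  have ht : ∀ i, t i ∈ Φ.G 1 := by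
    intro i
    have := hΦ (Fin.castAdd n' (Fin.castAdd n (Fin.castAdd a i)))
    rwa [Fin.append_left, Fin.append_left, Fin.append_left] at this
  have hu : ∀ i, u i ∈ Φ.G 1 := by
    intro i
    have := hΦ (Fin.castAdd n' (Fin.castAdd n (Fin.natAdd r i)))
    rwa [Fin.append_left, Fin.append_left, Fin.append_right] at this
  have hy : ∀ q, q ≠ p → y q ∈ Φ.G 1 := by
    intro q hq
    obtain ⟨i, rfl⟩ := Fin.exists_succAbove_eq hq
    have := hΦ (Fin.castAdd n' (Fin.natAdd (r + a) i))
    rwa [Fin.append_left, Fin.append_right] at this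
  have hy' : ∀ q, q ≠ p' → y' q ∈ Φ.G 1 := by
    intro q hq
    obtain ⟨i, rfl⟩ := Fin.exists_succAbove_eq hq
    have := hΦ (Fin.natAdd (r + a + n) i)
    rwa [Fin.append_right] at this
  obtain ⟨b, ha1, ha2, ha3⟩ := hp (r + a + n + n') _ Φ hu (fun q hq => hy q hq.ne)
  obtain ⟨Φ1, h1, hy1⟩ := hfst (r + a + n + n') 1 d K F Φ (y p) b ha1 ha2 ha3
  obtain ⟨b', ha1', ha2', ha3'⟩ := hp' (r + a + n + n') _ Φ1 (fun i => h1 1 le_rfl (hu i))
    (fun q hq => h1 1 le_rfl (hy' q hq.ne))
  obtain ⟨Φ2, h2, hy2⟩ := hfst (r + a + n + n') _ d K F Φ1 (y' p') b' ha1' ha2' ha3'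
  obtain ⟨Q, hQ0, hQD, hQ⟩ := hfct (r + a + n + n') _ K F Φ2 w (by
    refine hw (Φ2.G 1) (fun i => h2 1 le_rfl (h1 1 le_rfl (ht i)))
      (fun i => h2 1 le_rfl (h1 1 le_rfl (hu i))) (fun i => ?_) (fun i => ?_)
    · by_cases hi : i = p
      · rw [hi]
        exact h2 1 le_rfl hy1
      · exact h2 1 le_rfl (h1 1 le_rfl (hy i hi))
    · by_cases hi : i = p'
      · rw [hi]
        exact hy2
      · exact h2 1 le_rfl (h1 1 le_rfl (hy' i hi)))
  exact ⟨Q, hQ0, hQD.trans (le_max_right _ _), hQ⟩

/-- ELM: if `(g + c x, h + c' x)` and `(g + e x, h' + e' x)` are dependent, then `(g, h, h')` is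
dependent; here `c = e = 0` or `e` is a multiple of `c`, with a factor which is not one -/
def T_ELM : Prop := ∀ r s d : ℕ, ∃ D : ℕ,
  ∀ (K F : Type) [Field K] [Field F] [Algebra K F] (t0 : Fin 0 → F)
  (g : Fin r → F) (h h' : Fin s → F) (c e : Fin r → K) (c' e' : Fin s → K) (x : F),
  ((∃ ε : K, ε ≠ 1 ∧ ∀ k, e k = ε * c k) ∨ ∀ k, c k = 0 ∧ e k = 0) →
  RelRN K t0 d (Fin.append (fun k => g k + algebraMap K F (c k) * x)
    (fun k => h k + algebraMap K F (c' k) * x) : Fin (r + s) → F) →
  RelRN K t0 d (Fin.append (fun k => g k + algebraMap K F (e k) * x)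
    (fun k => h' k + algebraMap K F (e' k) * x) : Fin (r + s) → F) →
  ∃ Q : MvPolynomial (Fin (r + (s + s))) K, Q ≠ 0 ∧ Q.totalDegree ≤ D ∧
    aeval (Fin.append g (Fin.append h h') : Fin (r + (s + s)) → F) Q = 0

theorem elm (hELD : T_ELD) : T_ELM := by
  classical
  intro r s d
  obtain ⟨D1, hD1⟩ := hELD 1 r s s (r + (s + s)) d (by omega)
  rcases r with - | r
  · refine ⟨D1, ?_⟩
    intro K F _ _ _ t0 g h h' c e c' e' x _ r1 r2
    have e1 : (fun k => g k + algebraMap K F (c k) * x) = g := funext fun k => k.elim0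
    have e2 : (fun k => g k + algebraMap K F (e k) * x) = g := funext fun k => k.elim0
    rw [e1] at r1
    rw [e2] at r2
    rcases hD1 K F t0 (fun _ => x) g _ _ r1 r2 with ⟨Q, hQ0, hQD, hQ⟩ | hw
    · refine ⟨rename (Fin.castAdd _) Q, ?_, (totalDegree_rename_le _ _).trans hQD, ?_⟩
      · intro h0
        exact hQ0 (rename_injective _ (Fin.castAdd_injective _ _) (by rw [h0, map_zero]))
      · rw [aeval_rename]
        have e3 : (Fin.append g (Fin.append h h') : Fin (0 + (s + s)) → F) ∘ Fin.castAdd (s + s) =
            g := funext fun k => k.elim0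
        rw [e3]
        exact hQ
    · refine hw _ fun W h1 h2 h3 h4 i => ?_
      induction i using Fin.addCases with
      | left i => exact i.elim0
      | right i =>
        rw [Fin.append_right]
        induction i using Fin.addCases with
        | left i =>
          rw [Fin.append_left]
          have e3 : h i = (h i + algebraMap K F (c' i) * x) - c' i • x := by
            rw [Algebra.smul_def]
            ring
          rw [e3]
          exact W.sub_mem (h3 i) (W.smul_mem _ (h1 0))
        | right i =>
          rw [Fin.append_right]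
          have e3 : h' i = (h' i + algebraMap K F (e' i) * x) - e' i • x := by
            rw [Algebra.smul_def]
            ring
          rw [e3]
          exact W.sub_mem (h4 i) (W.smul_mem _ (h1 0))
  obtain ⟨D2, hD2⟩ := hELD 0 r (s + 1) (s + 1) (r + 1 + (s + s)) d (by omega)
  refine ⟨max D1 D2, ?_⟩
  intro K F _ _ _ t0 g h h' c e c' e' x hce r1 r2
  have hinj : Function.Injective (Fin.castAdd (s + s) : Fin (r + 1) → Fin (r + 1 + (s + s))) :=
    Fin.castAdd_injective _ _
  by_cases hc : ∀ k, c k = 0 ∧ e k = 0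
  · have e1 : (fun k => g k + algebraMap K F (c k) * x) = g := by
      funext k
      rw [(hc k).1, map_zero, zero_mul, add_zero]
    have e2 : (fun k => g k + algebraMap K F (e k) * x) = g := by
      funext k
      rw [(hc k).2, map_zero, zero_mul, add_zero]
    rw [e1] at r1
    rw [e2] at r2
    rcases hD1 K F t0 (fun _ => x) g _ _ r1 r2 with ⟨Q, hQ0, hQD, hQ⟩ | hw
    · refine ⟨rename (Fin.castAdd _) Q, ?_, ((totalDegree_rename_le _ _).trans hQD).trans
        (le_max_left _ _), ?_⟩
      · intro h0
        exact hQ0 (rename_injective _ hinj (by rw [h0, map_zero]))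
      · rw [aeval_rename]
        have e3 : (Fin.append g (Fin.append h h') : Fin (r + 1 + (s + s)) → F) ∘
            Fin.castAdd (s + s) = g := by
          funext k
          rw [Function.comp_apply, Fin.append_left]
        rw [e3]
        exact hQ
    · obtain ⟨Q, hQ0, hQD, hQ⟩ := hw (Fin.append g (Fin.append h h')) (fun W h1 h2 h3 h4 i => by
        induction i using Fin.addCases with
        | left i =>
          rw [Fin.append_left]
          exact h2 i
        | right i =>
          rw [Fin.append_right]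
          induction i using Fin.addCases with
          | left i =>
            rw [Fin.append_left]
            have e3 : h i = (h i + algebraMap K F (c' i) * x) - c' i • x := by
              rw [Algebra.smul_def]
              ring
            rw [e3]
            exact W.sub_mem (h3 i) (W.smul_mem _ (h1 0))
          | right i =>
            rw [Fin.append_right]
            have e3 : h' i = (h' i + algebraMap K F (e' i) * x) - e' i • x := by
              rw [Algebra.smul_def]
              ring
            rw [e3]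
            exact W.sub_mem (h4 i) (W.smul_mem _ (h1 0)))
      exact ⟨Q, hQ0, hQD.trans (le_max_left _ _), hQ⟩
  -- an index `p` with `c p ≠ 0`, and `e = ε c` with `ε ≠ 1`
  obtain ⟨ε, hε, he⟩ : ∃ ε : K, ε ≠ 1 ∧ ∀ k, e k = ε * c k := by
    rcases hce with h1 | h1
    · exact h1
    · exact absurd h1 hc
  obtain ⟨p, hp⟩ : ∃ p, c p ≠ 0 := by
    by_contra hcon
    push Not at hcon
    exact hc fun k => ⟨hcon k, by rw [he, hcon k, mul_zero]⟩
  set dd : Fin r → K := fun i => c (p.succAbove i) / c p with hdd
  set μ : Fin r → F := fun i => g (p.succAbove i) - algebraMap K F (dd i) * g p with hμ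
  set S : Fin (r + 1 + s) → MvPolynomial (Fin (r + (s + 1))) K :=
    Fin.append (Fin.insertNth p (X (Fin.natAdd r 0))
      (fun i => X (Fin.castAdd (s + 1) i) + C (dd i) * X (Fin.natAdd r 0)))
      (fun k => X (Fin.natAdd r k.succ)) with hS
  set T : Fin (r + (s + 1)) → MvPolynomial (Fin (r + 1 + s)) K :=
    Fin.append (fun i => X (Fin.castAdd s (p.succAbove i)) - C (dd i) * X (Fin.castAdd s p))
      (Fin.cons (X (Fin.castAdd s p)) (fun k => X (Fin.natAdd (r + 1) k))) with hT
  have hS1 : ∀ k, (S k).totalDegree ≤ 1 := by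
    intro k
    induction k using Fin.addCases with
    | left k =>
      rw [hS, Fin.append_left]
      revert k
      rw [Fin.forall_iff_succAbove p]
      refine ⟨?_, fun i => ?_⟩
      · rw [Fin.insertNth_apply_same, totalDegree_X]
      · rw [Fin.insertNth_apply_succAbove]
        refine (totalDegree_add _ _).trans (max_le ?_ ?_)
        · rw [totalDegree_X]
        · refine (totalDegree_mul _ _).trans ?_
          rw [totalDegree_C, totalDegree_X]
    | right k =>
      rw [hS, Fin.append_right, totalDegree_X]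
  have hTS : ∀ k, aeval T (S k) = X k := by
    intro k
    induction k using Fin.addCases with
    | left k =>
      rw [hS, Fin.append_left]
      revert k
      rw [Fin.forall_iff_succAbove p]
      refine ⟨?_, fun i => ?_⟩
      · rw [Fin.insertNth_apply_same, aeval_X, hT, Fin.append_right, Fin.cons_zero]
      · rw [Fin.insertNth_apply_succAbove, map_add, map_mul, aeval_X, aeval_X, aeval_C, hT,
          Fin.append_right, Fin.append_left, Fin.cons_zero, algebraMap_eq]
        ring
    | right k =>
      rw [hS, Fin.append_right, aeval_X, hT, Fin.append_right, Fin.cons_succ]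
  have hcp : algebraMap K F (c p) ≠ 0 := by
    rw [map_ne_zero]
    exact hp
  -- the two tuples in the new coordinates
  have hz : ∀ (w : F) (l : Fin s → F) (k : Fin (r + 1 + s)), aeval (Fin.append μ
      (Fin.cons (g p + algebraMap K F (c p) * w) l) : Fin (r + (s + 1)) → F) (S k) =
      (Fin.append (fun k => g k + algebraMap K F (c k) * w) l : Fin (r + 1 + s) → F) k := by
    intro w l k
    induction k using Fin.addCases with
    | left k =>
      rw [hS, Fin.append_left, Fin.append_left]
      revert k
      rw [Fin.forall_iff_succAbove p]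
      refine ⟨?_, fun i => ?_⟩
      · rw [Fin.insertNth_apply_same, aeval_X, Fin.append_right, Fin.cons_zero]
      · rw [Fin.insertNth_apply_succAbove, map_add, map_mul, aeval_X, aeval_X, aeval_C,
          Fin.append_right, Fin.append_left, Fin.cons_zero, hμ, hdd]
        simp only [map_div₀]
        field_simp
        ring
    | right k =>
      rw [hS, Fin.append_right, aeval_X, Fin.append_right, Fin.append_right, Fin.cons_succ]
  have r1' := relRN_lin2 t0 d _ _ S T hS1 hTS (hz x (fun k => h k + algebraMap K F (c' k) * x)) r1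
  have e2 : (fun k => g k + algebraMap K F (e k) * x) =
      fun k => g k + algebraMap K F (c k) * (algebraMap K F ε * x) := by
    funext k
    rw [he, map_mul]
    ring
  rw [e2] at r2
  have r2' := relRN_lin2 t0 d _ _ S T hS1 hTS
    (hz (algebraMap K F ε * x) (fun k => h' k + algebraMap K F (e' k) * x)) r2
  rcases hD2 K F t0 (fun i => i.elim0) μ _ _ r1' r2' with ⟨R, hR0, hRD, hR⟩ | hw
  · refine ⟨aeval (fun i => X (Fin.castAdd (s + s) (p.succAbove i)) -
      C (dd i) * X (Fin.castAdd (s + s) p)) R, ?_, ?_, ?_⟩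
    · intro h0
      apply hR0
      have h5 := congrArg (aeval (Fin.append (Fin.insertNth p (0 : MvPolynomial (Fin r) K) X)
        (fun _ => 0) : Fin (r + 1 + (s + s)) → MvPolynomial (Fin r) K)) h0
      rw [map_zero, ← AlgHom.comp_apply, comp_aeval] at h5
      rw [← h5]
      have e3 : (fun i => aeval (Fin.append (Fin.insertNth p (0 : MvPolynomial (Fin r) K) X)
        (fun _ => 0) : Fin (r + 1 + (s + s)) → MvPolynomial (Fin r) K)
          (X (Fin.castAdd (s + s) (p.succAbove i)) - C (dd i) * X (Fin.castAdd (s + s) p) :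
            MvPolynomial (Fin (r + 1 + (s + s))) K)) = X := by
        funext i
        rw [map_sub, map_mul, aeval_X, aeval_X, Fin.append_left, Fin.append_left,
          Fin.insertNth_apply_same, Fin.insertNth_apply_succAbove, mul_zero, sub_zero]
      rw [e3]
      exact (aeval_X_left_apply R).symm
    · refine ((totalDegree_aeval_le _ (fun i => ?_) R).trans hRD).trans (le_max_right _ _)
      refine (totalDegree_sub _ _).trans (max_le ?_ ?_)
      · rw [totalDegree_X]
      · refine (totalDegree_mul _ _).trans ?_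
        rw [totalDegree_C, totalDegree_X]
    · rw [← AlgHom.comp_apply, comp_aeval]
      have e3 : (fun i => aeval (Fin.append g (Fin.append h h') : Fin (r + 1 + (s + s)) → F)
          (X (Fin.castAdd (s + s) (p.succAbove i)) - C (dd i) * X (Fin.castAdd (s + s) p) :
            MvPolynomial (Fin (r + 1 + (s + s))) K)) = μ := by
        funext i
        rw [map_sub, map_mul, aeval_X, aeval_X, aeval_C, Fin.append_left, Fin.append_left, hμ]
      rw [e3]
      exact hR
  · obtain ⟨Q, hQ0, hQD, hQ⟩ := hw (Fin.append g (Fin.append h h')) (fun W _ h2 h3 h4 => by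
      have hx : x ∈ W := by
        have h5 := W.smul_mem ((c p * (1 - ε))⁻¹) (W.sub_mem (h3 0) (h4 0))
        rw [Fin.cons_zero, Fin.cons_zero] at h5
        have h6 : (c p * (1 - ε)) ≠ 0 := mul_ne_zero hp (sub_ne_zero.2 (Ne.symm hε))
        have e3 : (c p * (1 - ε))⁻¹ • (g p + algebraMap K F (c p) * x -
            (g p + algebraMap K F (c p) * (algebraMap K F ε * x))) = x := by
          have e4 : g p + algebraMap K F (c p) * x -
            (g p + algebraMap K F (c p) * (algebraMap K F ε * x)) = (c p * (1 - ε)) • x := by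
            rw [Algebra.smul_def, map_mul, map_sub, map_one]
            ring
          rw [e4, smul_smul, inv_mul_cancel₀ h6, one_smul]
        rwa [e3] at h5
      have hgp : g p ∈ W := by
        have h5 := W.sub_mem (h3 0) (W.smul_mem (c p) hx)
        rw [Fin.cons_zero] at h5
        have e3 : g p + algebraMap K F (c p) * x - c p • x = g p := by
          rw [Algebra.smul_def]
          ring
        rwa [e3] at h5
      intro i
      induction i using Fin.addCases with
      | left i =>
        rw [Fin.append_left]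
        revert i
        rw [Fin.forall_iff_succAbove p]
        refine ⟨hgp, fun i => ?_⟩
        have e3 : g (p.succAbove i) = μ i + dd i • g p := by
          rw [hμ, Algebra.smul_def]
          ring
        rw [e3]
        exact W.add_mem (h2 i) (W.smul_mem _ hgp)
      | right i =>
        rw [Fin.append_right]
        induction i using Fin.addCases with
        | left i =>
          rw [Fin.append_left]
          have h5 := W.sub_mem (h3 i.succ) (W.smul_mem (c' i) hx)
          rw [Fin.cons_succ] at h5
          have e3 : h i + algebraMap K F (c' i) * x - c' i • x = h i := by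
            rw [Algebra.smul_def]
            ring
          rwa [e3] at h5
        | right i =>
          rw [Fin.append_right]
          have h5 := W.sub_mem (h4 i.succ) (W.smul_mem (e' i) hx)
          rw [Fin.cons_succ] at h5
          have e3 : h' i + algebraMap K F (e' i) * x - e' i • x = h' i := by
            rw [Algebra.smul_def]
            ring
          rwa [e3] at h5)
    exact ⟨Q, hQ0, hQD.trans (le_max_right _ _), hQ⟩

theorem pf_ELM : T_ELM :=
  elm (eld Pool.Agent.H68.PSV.pf_FBS Pool.Agent.H68.PSV.pf_FST Pool.Agent.H34.PSV.pf_FCT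
    Pool.Agent.H48.PSV.pf_RPO)

end Pool.Agent.H81.CC
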