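import Pool.Agent.H81.CC.All
import Pool.Agent.H81.CC.CCB
import Pool.Agent.H72.CC.Stmt

/-!
# The statements (A) and (C) (MP_3cf473_nt)
-/

set_option autoImplicit false

namespace Pool.Agent.H81.CC

open Pool.Agent.H72.CC

theorem pf_CCB : T_CCB :=
  ccb Pool.Agent.H29.BF.pkg Pool.Agent.H84.BF.evp Pool.Agent.H57.BF.clr
    (Pool.Agent.H68.PSV.pf_RKN Pool.Agent.H84.BF.evp) pf_ELB Pool.Agent.H85.PS.All.tGIN

/-- it is enough to consider heights above a bound -/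
theorem msr_of {n : ℕ} (d : ℕ) (y : Fin n → ℂ) (B C : ℝ) (hC : 0 < C)
    (h : ∀ H : ℝ, 2 ≤ H → B ≤ H → ∀ P : MvPolynomial (Fin n) ℤ, P ≠ 0 → P.totalDegree ≤ d →
      (∀ m : Fin n →₀ ℕ, |((P.coeff m : ℤ) : ℝ)| ≤ H) →
      1 ≤ H ^ C * ‖MvPolynomial.aeval y P‖) : Msr d y := by
  obtain ⟨c, hc⟩ := pow_unbounded_of_one_lt B (one_lt_two)
  refine ⟨(c + 1 : ℕ) * C, by positivity, ?_⟩
  intro H hH P hP hPd hPH
  have hH1 : (1 : ℝ) ≤ H := by linarith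
  have hH0 : (0 : ℝ) < H := by linarith
  have hHH : H ≤ H ^ (c + 1) := by
    calc H = H ^ 1 := (pow_one _).symm
      _ ≤ H ^ (c + 1) := pow_le_pow_right₀ hH1 (by omega)
  have hB : B ≤ H ^ (c + 1) := by
    calc B ≤ 2 ^ c := hc.le
      _ ≤ H ^ c := pow_le_pow_left₀ (by norm_num) hH _
      _ ≤ H ^ (c + 1) := pow_le_pow_right₀ hH1 (by omega)
  have h1 := h (H ^ (c + 1)) (hH.trans hHH) hB P hP hPd (fun m => (hPH m).trans hHH)
  have h2 : (H ^ (c + 1)) ^ C = H ^ (((c + 1 : ℕ) : ℝ) * C) := by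
    rw [← Real.rpow_natCast, ← Real.rpow_mul hH0.le]
  rw [h2] at h1
  have h3 : 0 < H ^ (((c + 1 : ℕ) : ℝ) * C) := Real.rpow_pos_of_pos hH0 _
  rw [Real.rpow_neg hH0.le, ← one_div, div_le_iff₀ h3, mul_comm]
  exact h1

theorem conj_of_re {ξ : ℂ} (h : ξ.re = 0) : (starRingEnd ℂ) ξ = -ξ := by
  apply Complex.ext
  · rw [Complex.conj_re, Complex.neg_re, h, neg_zero]
  · rw [Complex.conj_im, Complex.neg_im]

theorem conj_of_im {ξ : ℂ} (h : ξ.im = 0) : (starRingEnd ℂ) ξ = ξ := by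
  apply Complex.ext
  · rw [Complex.conj_re]
  · rw [Complex.conj_im, h, neg_zero]

theorem pf_A (hGIC : Pool.Agent.H72.GP.T_GIC) : S_A := by
  intro n d
  obtain ⟨dl, N1, hdl, h⟩ := pf_CCF hGIC n d
  refine ⟨dl, N1, hdl, ?_⟩
  intro N hN x y hSm hNCj hy ξ hξ
  obtain ⟨C, hC, h1⟩ := h ξ hξ.1 hξ.2.1 (by
    rcases hξ.2.2 with h2 | h2
    · exact Or.inr (conj_of_re h2)
    · exact Or.inl (conj_of_im h2))
  exact msr_of d _ N C hC fun H hH hNH P hP hPd hPH =>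
    h1 N hN x y ⟨hy, hNCj⟩ hSm H hH hNH P hP hPd hPH

theorem pf_C : S_C := by
  classical
  intro n d
  obtain ⟨dl, N1, C, hdl, hC, h⟩ := pf_CCB n d
  refine ⟨dl, N1, hdl, ?_⟩
  intro N hN b hb hb0 hbN ξ hξ _ c
  refine msr_of d _ ((N : ℝ) + ‖ξ‖ + ∑ k, |((c k : ℤ) : ℝ)|) C hC ?_
  intro H hH hB P hP hPd hPH
  have h0 : 0 ≤ ∑ k, |((c k : ℤ) : ℝ)| := Finset.sum_nonneg fun _ _ => abs_nonneg _
  have h1 : (0 : ℝ) ≤ N := Nat.cast_nonneg _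
  have h2 := norm_nonneg ξ
  refine h N hN b hb hb0 hbN H hH (by linarith) ξ (conj_of_re hξ) (by linarith) c (fun k => ?_) P hP
    hPd hPH
  have h3 : |((c k : ℤ) : ℝ)| ≤ ∑ k, |((c k : ℤ) : ℝ)| :=
    Finset.single_le_sum (f := fun k => |((c k : ℤ) : ℝ)|) (fun _ _ => abs_nonneg _)
      (Finset.mem_univ k)
  linarith

end Pool.Agent.H81.CC
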